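import Mathlib

/-!
# Auxiliary lemmas: polynomials with coefficients in a subring
-/

namespace Pool.Agent.H86.Polar

open MvPolynomial

section CoeffMem

variable {T T'' : Type*} [CommRing T] [CommRing T''] {σ : Type*}

/-- If the images of the coefficients of `f` and the values `v i` lie in a subring, then so does the
value of `f`. -/
lemma eval₂_mem (R : Subring T'') (f : MvPolynomial σ T) (g : T →+* T'') (v : σ → T'')
    (h : ∀ β, g (f.coeff β) ∈ R) (hv : ∀ i, v i ∈ R) : eval₂ g v f ∈ R := by
  rw [MvPolynomial.eval₂_eq]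
  refine sum_mem fun d _ => R.mul_mem (h d) ?_
  exact prod_mem fun i _ => R.pow_mem (hv i) _

/-- The subring of multivariate polynomials with coefficients in a subring. -/
noncomputable def coeffRing (R : Subring T) (σ : Type*) : Subring (MvPolynomial σ T) :=
  (MvPolynomial.map (σ := σ) R.subtype).range

lemma mem_coeffRing {R : Subring T} {f : MvPolynomial σ T} :
    f ∈ coeffRing R σ ↔ ∀ β, f.coeff β ∈ R := by
  classical
  unfold coeffRing
  rw [RingHom.mem_range]
  constructor
  · rintro ⟨g, rfl⟩ β
    rw [MvPolynomial.coeff_map]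
    exact (g.coeff β).2
  · intro h
    have := (MvPolynomial.mem_range_map_iff_coeffs_subset (f := R.subtype) (x := f)).mpr ?_
    · exact this
    · intro c hc
      rw [Finset.mem_coe, MvPolynomial.mem_coeffs_iff] at hc
      obtain ⟨n, _, rfl⟩ := hc
      exact ⟨⟨_, h n⟩, rfl⟩

lemma C_mem_coeffRing {R : Subring T} {t : T} (ht : t ∈ R) :
    (C t : MvPolynomial σ T) ∈ coeffRing R σ := by
  classical
  rw [mem_coeffRing]
  intro β
  rw [MvPolynomial.coeff_C]
  split_ifs
  · exact ht
  · exact R.zero_mem

lemma X_mem_coeffRing {R : Subring T} (i : σ) :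
    (X i : MvPolynomial σ T) ∈ coeffRing R σ := by
  classical
  rw [mem_coeffRing]
  intro β
  rw [MvPolynomial.coeff_X]
  split_ifs
  · exact R.one_mem
  · exact R.zero_mem

/-- The subring of univariate polynomials with coefficients in a subring. -/
noncomputable def polyRing (R : Subring T) : Subring (Polynomial T) :=
  (Polynomial.mapRingHom R.subtype).range

lemma mem_polyRing {R : Subring T} {f : Polynomial T} :
    f ∈ polyRing R ↔ ∀ n, f.coeff n ∈ R := by
  unfold polyRing
  rw [Polynomial.mem_map_range]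
  constructor
  · intro h n
    obtain ⟨x, hx⟩ := h n
    rw [← hx]
    exact x.2
  · intro h n
    exact ⟨⟨_, h n⟩, rfl⟩

lemma polyC_mem_polyRing {R : Subring T} {t : T} (ht : t ∈ R) :
    (Polynomial.C t) ∈ polyRing R := by
  rw [mem_polyRing]
  intro n
  rw [Polynomial.coeff_C]
  split_ifs
  · exact ht
  · exact R.zero_mem

lemma polyX_mem_polyRing {R : Subring T} :
    (Polynomial.X : Polynomial T) ∈ polyRing R := by
  rw [mem_polyRing]
  intro n
  rw [Polynomial.coeff_X]
  split_ifs
  · exact R.one_mem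
  · exact R.zero_mem

lemma eval_mem_of_polyRing {R : Subring T} {f : Polynomial T} (hf : f ∈ polyRing R) {t : T}
    (ht : t ∈ R) : f.eval t ∈ R := by
  rw [mem_polyRing] at hf
  rw [Polynomial.eval_eq_sum_range]
  exact sum_mem fun i _ => R.mul_mem (hf i) (R.pow_mem ht i)

/-- A symmetric expression `∏ Ψ (y i)` has values in the subring generated by the coefficients of
`Ψ` and of `∏ (X - y i)`. -/
lemma prod_eval_mem {ι : Type*} (R : Subring T) (s : Finset ι) (y : ι → T) (Ψ : Polynomial T)
    (hF : (∏ i ∈ s, (Polynomial.X - Polynomial.C (y i))) ∈ polyRing R) (hΨ : Ψ ∈ polyRing R) :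
    ∏ i ∈ s, Ψ.eval (y i) ∈ R := by
  classical
  nontriviality T
  obtain ⟨F, hF'⟩ := hF
  obtain ⟨Ψ', hΨ'⟩ := hΨ
  have key : (∏ i ∈ s, (Polynomial.X - Polynomial.C (y i))).resultant Ψ
      (∏ i ∈ s, (Polynomial.X - Polynomial.C (y i))).natDegree Ψ.natDegree
      = ∏ i ∈ s, Ψ.eval (y i) := by
    rw [Polynomial.resultant_prod_left _ _ _ _ _ le_rfl]
    · refine Finset.prod_congr rfl fun i _ => ?_
      rw [Polynomial.natDegree_X_sub_C]
      exact Polynomial.resultant_X_sub_C_left _ _ _ le_rfl
    · simp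
  rw [← key, ← hF', ← hΨ']
  simp only [Polynomial.coe_mapRingHom]
  rw [Polynomial.resultant_map_map]
  exact Subtype.coe_prop _

end CoeffMem

end Pool.Agent.H86.Polar
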