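import Mathlib

/-!
# Invariants of several vectors and polarizations

`V = k^m` with `G` acting through `ρ : G →* GL (Fin m) k`.  `k[V] = MvPolynomial (Fin m) k`, and for
a finite set `Λ` (in the end `Λ = Fin n`) `k[V^Λ] = MvPolynomial (Λ × Fin m) k`, the variable
`X (l, r)` being the `r`-th coordinate of the `l`-th vector `v_l`.
-/

namespace Pool.Agent.H86.Polar

open MvPolynomial

universe u v

variable {k : Type u} [Field k] {G : Type v} [Group G] {m : ℕ}

/-- `f ↦ f ∘ g` on `k[V]`: substitute `g v` for `v`. -/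
noncomputable def translate (ρ : G →* Matrix.GeneralLinearGroup (Fin m) k) (g : G) :
    MvPolynomial (Fin m) k →ₐ[k] MvPolynomial (Fin m) k :=
  aeval fun r => ∑ r', C ((ρ g : Matrix (Fin m) (Fin m) k) r r') * X r'

/-- `f ↦ f ∘ (g, …, g)` on `k[V^Λ]`: substitute `g v_l` for every `v_l`. -/
noncomputable def translateD (ρ : G →* Matrix.GeneralLinearGroup (Fin m) k) (Λ : Type) (g : G) :
    MvPolynomial (Λ × Fin m) k →ₐ[k] MvPolynomial (Λ × Fin m) k :=
  aeval fun lr => ∑ r', C ((ρ g : Matrix (Fin m) (Fin m) k) lr.2 r') * X (lr.1, r')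

/-- The algebra `k[V]^G` of invariants of one vector. -/
noncomputable def inv (ρ : G →* Matrix.GeneralLinearGroup (Fin m) k) :
    Subalgebra k (MvPolynomial (Fin m) k) where
  carrier := {f | ∀ g : G, translate ρ g f = f}
  mul_mem' := fun ha hb g => by rw [map_mul, ha g, hb g]
  add_mem' := fun ha hb g => by rw [map_add, ha g, hb g]
  algebraMap_mem' := fun r g => AlgHom.commutes _ r

/-- The algebra `k[V^Λ]^G` of (diagonal) invariants of the vectors `v_l`, `l ∈ Λ`. -/
noncomputable def invD (ρ : G →* Matrix.GeneralLinearGroup (Fin m) k) (Λ : Type) :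
    Subalgebra k (MvPolynomial (Λ × Fin m) k) where
  carrier := {f | ∀ g : G, translateD ρ Λ g f = f}
  mul_mem' := fun ha hb g => by rw [map_mul, ha g, hb g]
  add_mem' := fun ha hb g => by rw [map_add, ha g, hb g]
  algebraMap_mem' := fun r g => AlgHom.commutes _ r

/-- `f(v) ↦ f(∑ t_l v_l)`, a polynomial in the indeterminates `t_l`, `l ∈ Λ`, with coefficients in
`k[V^Λ]`; its coefficients are the polarizations of `f`. -/
noncomputable def polar (k : Type u) [Field k] (m : ℕ) (Λ : Type) [Fintype Λ] :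
    MvPolynomial (Fin m) k →ₐ[k] MvPolynomial Λ (MvPolynomial (Λ × Fin m) k) :=
  aeval fun r => ∑ l, X l * C (X (l, r))

/-- The algebra generated by all polarizations (in `k[V^Λ]`) of the elements of `S ⊆ k[V]`. -/
noncomputable def polAlg (S : Set (MvPolynomial (Fin m) k)) (Λ : Type) [Fintype Λ] :
    Subalgebra k (MvPolynomial (Λ × Fin m) k) :=
  Algebra.adjoin k {x | ∃ f ∈ S, ∃ β : Λ →₀ ℕ, x = (polar k m Λ f).coeff β}

end Pool.Agent.H86.Polar
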