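import Mathlib

/-!
# Extending homomorphisms to algebraically closed fields, and the fibre computation
-/

set_option linter.unusedSectionVars false

namespace Pool.Agent.H86.Polar

open Polynomial

/-- Ring homomorphisms to algebraically closed fields extend along integral extensions. -/
lemma exists_extension {C B Ω : Type*} [CommRing C] [CommRing B] [Algebra C B]
    [Algebra.IsIntegral C B] [Field Ω] [IsAlgClosed Ω] (χ : C →+* Ω)
    (hker : RingHom.ker (algebraMap C B) ≤ RingHom.ker χ) :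
    ∃ ψ : B →+* Ω, ψ.comp (algebraMap C B) = χ := by
  have hprime : (RingHom.ker χ).IsPrime := RingHom.ker_isPrime χ
  obtain ⟨Q, -, hQ, hQ'⟩ := Ideal.exists_ideal_over_prime_of_isIntegral (S := B) (RingHom.ker χ) ⊥
    (by rw [← RingHom.ker_eq_comap_bot]; exact hker)
  let χ' : C ⧸ Q.comap (algebraMap C B) →+* Ω := Ideal.Quotient.lift _ χ (by
    intro a ha
    rw [hQ'] at ha
    exact ha)
  have hχ' : Function.Injective χ' := by
    rw [injective_iff_map_eq_zero]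
    intro x hx
    obtain ⟨c, rfl⟩ := Ideal.Quotient.mk_surjective x
    rw [Ideal.Quotient.eq_zero_iff_mem, hQ']
    exact hx
  let : Algebra (C ⧸ Q.comap (algebraMap C B)) Ω := χ'.toAlgebra
  have hd : IsDomain (C ⧸ Q.comap (algebraMap C B)) := by
    have : (Q.comap (algebraMap C B)).IsPrime := by rw [hQ']; exact hprime
    infer_instance
  have h3 : Module.IsTorsionFree (C ⧸ Q.comap (algebraMap C B)) Ω :=
    Module.isTorsionFree_iff_algebraMap_injective.mpr hχ'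
  have h4 : Module.IsTorsionFree (C ⧸ Q.comap (algebraMap C B)) (B ⧸ Q) :=
    Module.isTorsionFree_iff_algebraMap_injective.mpr Ideal.algebraMap_quotient_injective
  have h5 : Algebra.IsIntegral (C ⧸ Q.comap (algebraMap C B)) (B ⧸ Q) := inferInstance
  let ψ' : (B ⧸ Q) →ₐ[C ⧸ Q.comap (algebraMap C B)] Ω := IsAlgClosed.lift
  refine ⟨(ψ' : (B ⧸ Q) →+* Ω).comp (Ideal.Quotient.mk Q), ?_⟩
  ext c
  have h6 : Ideal.Quotient.mk Q (algebraMap C B c) =
      algebraMap (C ⧸ Q.comap (algebraMap C B)) (B ⧸ Q) (Ideal.Quotient.mk _ c) := rfl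
  simp only [RingHom.comp_apply, RingHom.coe_coe]
  rw [h6, ψ'.commutes]
  rfl

section Fibre

universe u
variable {A B : Type u} [CommRing A] [CommRing B] [Algebra A B]

/-- The map to the residue field. -/
noncomputable def resMap (𝔭 : Ideal A) [𝔭.IsPrime] : A →+* FractionRing (A ⧸ 𝔭) :=
  (algebraMap (A ⧸ 𝔭) (FractionRing (A ⧸ 𝔭))).comp (Ideal.Quotient.mk 𝔭)

lemma resMap_eq_zero (𝔭 : Ideal A) [𝔭.IsPrime] {a : A} : resMap 𝔭 a = 0 ↔ a ∈ 𝔭 := by
  unfold resMap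
  rw [RingHom.comp_apply, IsFractionRing.to_map_eq_zero_iff, Ideal.Quotient.eq_zero_iff_mem]

lemma resMap_surj (𝔭 : Ideal A) [𝔭.IsPrime] (x : FractionRing (A ⧸ 𝔭)) :
    ∃ s ∉ 𝔭, ∃ a, resMap 𝔭 s * x = resMap 𝔭 a := by
  obtain ⟨⟨a, s⟩, h⟩ := IsLocalization.surj (nonZeroDivisors (A ⧸ 𝔭)) x
  obtain ⟨a', rfl⟩ := Ideal.Quotient.mk_surjective a
  obtain ⟨s', hs'⟩ := Ideal.Quotient.mk_surjective (s : A ⧸ 𝔭)
  refine ⟨s', ?_, a', ?_⟩
  · intro hmem
    have := nonZeroDivisors.ne_zero s.2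
    rw [← hs'] at this
    exact this (Ideal.Quotient.eq_zero_iff_mem.mpr hmem)
  · unfold resMap
    rw [RingHom.comp_apply, RingHom.comp_apply, hs', mul_comm]
    exact h

lemma resMap_surj_poly (𝔭 : Ideal A) [h𝔭 : 𝔭.IsPrime] (h : (FractionRing (A ⧸ 𝔭))[X]) :
    ∃ s ∉ 𝔭, ∃ g : A[X], C (resMap 𝔭 s) * h = g.map (resMap 𝔭) := by
  induction h using Polynomial.induction_on' with
  | add x y hx hy =>
    obtain ⟨s, hs, g, hg⟩ := hx
    obtain ⟨s', hs', g', hg'⟩ := hy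
    refine ⟨s * s', fun hmem => (h𝔭.mem_or_mem hmem).elim hs hs', C s' * g + C s * g', ?_⟩
    rw [Polynomial.map_add, Polynomial.map_mul, Polynomial.map_mul, ← hg, ← hg', map_mul, C_mul,
      Polynomial.map_C, Polynomial.map_C]
    ring
  | monomial n x =>
    obtain ⟨s, hs, a, ha⟩ := resMap_surj 𝔭 x
    refine ⟨s, hs, monomial n a, ?_⟩
    rw [Polynomial.map_monomial, ← ha, C_mul_monomial]

/-- The ideal of the fibre. -/
noncomputable def fibreIdeal (𝔭 : Ideal A) [h𝔭 : 𝔭.IsPrime] (f : B) :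
    Ideal ((FractionRing (A ⧸ 𝔭))[X]) where
  carrier := {h | ∃ s ∉ 𝔭, ∃ g : A[X], aeval f g = 0 ∧ C (resMap 𝔭 s) * h = g.map (resMap 𝔭)}
  zero_mem' := ⟨1, fun h => h𝔭.ne_top ((Ideal.eq_top_iff_one _).mpr h), 0, by simp⟩
  add_mem' := by
    rintro x y ⟨s, hs, g, hg0, hg⟩ ⟨s', hs', g', hg0', hg'⟩
    refine ⟨s * s', fun hmem => (h𝔭.mem_or_mem hmem).elim hs hs', C s' * g + C s * g', ?_, ?_⟩
    · rw [map_add, map_mul, map_mul, hg0, hg0']
      simp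
    · rw [Polynomial.map_add, Polynomial.map_mul, Polynomial.map_mul, ← hg, ← hg', map_mul, C_mul,
        Polynomial.map_C, Polynomial.map_C]
      ring
  smul_mem' := by
    rintro c x ⟨s, hs, g, hg0, hg⟩
    obtain ⟨s', hs', g', hg'⟩ := resMap_surj_poly 𝔭 c
    refine ⟨s * s', fun hmem => (h𝔭.mem_or_mem hmem).elim hs hs', g' * g, ?_, ?_⟩
    · rw [map_mul, hg0, mul_zero]
    · rw [Polynomial.map_mul, ← hg, ← hg', map_mul, C_mul, smul_eq_mul]
      ring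

lemma mem_fibreIdeal {𝔭 : Ideal A} [h𝔭 : 𝔭.IsPrime] {f : B} {h : (FractionRing (A ⧸ 𝔭))[X]} :
    h ∈ fibreIdeal 𝔭 f ↔
      ∃ s ∉ 𝔭, ∃ g : A[X], aeval f g = 0 ∧ C (resMap 𝔭 s) * h = g.map (resMap 𝔭) := Iff.rfl

lemma map_mem_fibreIdeal {𝔭 : Ideal A} [h𝔭 : 𝔭.IsPrime] {f : B} {g : A[X]}
    (hg : aeval f g = 0) : g.map (resMap 𝔭) ∈ fibreIdeal 𝔭 f :=
  ⟨1, fun h => h𝔭.ne_top ((Ideal.eq_top_iff_one _).mpr h), g, hg, by simp⟩

lemma aeval_mem_of_coeff_mem {𝔭 : Ideal A} {Q : Ideal B} (hQ : 𝔭 ≤ Q.comap (algebraMap A B))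
    (f : B) (g : A[X]) (hg : ∀ j, g.coeff j ∈ 𝔭) : aeval f g ∈ Q := by
  rw [aeval_eq_sum_range]
  refine Q.sum_mem fun j _ => ?_
  rw [Algebra.smul_def]
  exact Q.mul_mem_right _ (hQ (hg j))

lemma fibreIdeal_ne_top [Algebra.IsIntegral A B] (hinj : Function.Injective (algebraMap A B))
    (𝔭 : Ideal A) [h𝔭 : 𝔭.IsPrime] (f : B) : fibreIdeal 𝔭 f ≠ ⊤ := by
  intro htop
  have h1 : (1 : (FractionRing (A ⧸ 𝔭))[X]) ∈ fibreIdeal 𝔭 f := by rw [htop]; trivial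
  obtain ⟨s, hs, g, hg0, hg⟩ := h1
  obtain ⟨Q, -, hQ, hQ'⟩ := Ideal.exists_ideal_over_prime_of_isIntegral (S := B) 𝔭 ⊥
    (by
      rw [← RingHom.ker_eq_comap_bot, (RingHom.injective_iff_ker_eq_bot _).mp hinj]
      exact bot_le)
  have h2 : ∀ j, (g - C s).coeff j ∈ 𝔭 := by
    intro j
    rw [← resMap_eq_zero, ← Polynomial.coeff_map, Polynomial.map_sub, ← hg, mul_one,
      Polynomial.map_C, sub_self, Polynomial.coeff_zero]
  have h3 := aeval_mem_of_coeff_mem (B := B) hQ'.ge f _ h2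
  rw [map_sub, hg0, zero_sub, aeval_C] at h3
  have h4 : algebraMap A B s ∈ Q := (Submodule.neg_mem_iff Q).mp h3
  have h5 : s ∈ Q.comap (algebraMap A B) := h4
  rw [hQ'] at h5
  exact hs h5

lemma exists_hom_of_root [Algebra.IsIntegral A B] {𝔭 : Ideal A} [h𝔭 : 𝔭.IsPrime] {f : B}
    {Ω : Type u} [Field Ω] [IsAlgClosed Ω] [Algebra (FractionRing (A ⧸ 𝔭)) Ω] (ξ : Ω)
    (hξ : ∀ h ∈ fibreIdeal 𝔭 f, aeval ξ h = 0) :
    ∃ ψ : B →+* Ω, ψ.comp (algebraMap A B) =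
      (algebraMap (FractionRing (A ⧸ 𝔭)) Ω).comp (resMap 𝔭) ∧ ψ f = ξ := by
  let : Algebra A[X] B := (aeval f : A[X] →ₐ[A] B).toRingHom.toAlgebra
  have halg : ∀ g : A[X], algebraMap A[X] B g = aeval f g := fun g => rfl
  have htower : IsScalarTower A A[X] B := IsScalarTower.of_algebraMap_eq (fun a => by
    rw [halg, Polynomial.algebraMap_eq, aeval_C])
  have hint : Algebra.IsIntegral A[X] B := Algebra.IsIntegral.tower_top A
  let χ : A[X] →+* Ω := eval₂RingHom ((algebraMap (FractionRing (A ⧸ 𝔭)) Ω).comp (resMap 𝔭)) ξ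
  have hker : RingHom.ker (algebraMap A[X] B) ≤ RingHom.ker χ := by
    intro g hg
    rw [RingHom.mem_ker, halg] at hg
    have := hξ _ (map_mem_fibreIdeal (𝔭 := 𝔭) hg)
    rw [RingHom.mem_ker]
    simp only [χ, coe_eval₂RingHom]
    rw [aeval_def, eval₂_map] at this
    exact this
  obtain ⟨ψ, hψ⟩ := exists_extension χ hker
  refine ⟨ψ, ?_, ?_⟩
  · ext a
    have h1 := RingHom.congr_fun hψ (C a)
    rw [RingHom.comp_apply, halg, aeval_C] at h1
    rw [RingHom.comp_apply, h1]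
    simp [χ]
  · have h1 := RingHom.congr_fun hψ X
    rw [RingHom.comp_apply, halg, aeval_X] at h1
    rw [h1]
    simp [χ]

/-- The fibre computation. -/
lemma fibre (p : ℕ) [Fact p.Prime] [CharP A p] [Algebra.IsIntegral A B]
    (hinj : Function.Injective (algebraMap A B)) (f : B)
    (hsep : ∀ (Ω : Type u) [Field Ω] [IsAlgClosed Ω] (φ ψ : B →+* Ω),
      φ.comp (algebraMap A B) = ψ.comp (algebraMap A B) → φ f = ψ f)
    (𝔭 : Ideal A) [h𝔭 : 𝔭.IsPrime] :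
    ∃ s ∉ 𝔭, ∃ (n : ℕ) (a : A) (g : A[X]), (∀ j, g.coeff j ∈ 𝔭) ∧
      algebraMap A B s * f ^ p ^ n = algebraMap A B a + aeval f g := by
  classical
  set κ := FractionRing (A ⧸ 𝔭) with hκ
  have hcharκ : CharP κ p := by
    rw [CharP.charP_iff_prime_eq_zero (Fact.out : p.Prime)]
    have h1 : resMap 𝔭 (p : A) = 0 := by rw [CharP.cast_eq_zero, map_zero]
    rwa [map_natCast] at h1
  have hexp : ExpChar κ p := ExpChar.prime (Fact.out : p.Prime)
  let Ω := AlgebraicClosure κ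
  set J := fibreIdeal 𝔭 f with hJ
  obtain ⟨m₀, hm₀⟩ := (IsPrincipalIdealRing.principal J).principal
  have hmem₀ : ∀ h, h ∈ J ↔ m₀ ∣ h := by
    intro h
    rw [hm₀]
    exact Ideal.mem_span_singleton
  -- integrality
  obtain ⟨g₁, hg₁, hg₁0⟩ := Algebra.IsIntegral.isIntegral (R := A) f
  have hg₁J : g₁.map (resMap 𝔭) ∈ J := map_mem_fibreIdeal hg₁0
  have hm₀ne : m₀ ≠ 0 := by
    rintro rfl
    have := (hmem₀ _).mp hg₁J
    rw [zero_dvd_iff] at this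
    exact (hg₁.map (resMap 𝔭)).ne_zero this
  set m := m₀ * C (m₀.leadingCoeff)⁻¹ with hm
  have hmmon : m.Monic := monic_mul_leadingCoeff_inv hm₀ne
  have hmem : ∀ h, h ∈ J ↔ m ∣ h := by
    intro h
    rw [hmem₀]
    have hu : IsUnit (C (m₀.leadingCoeff)⁻¹ : κ[X]) :=
      isUnit_C.mpr (inv_ne_zero (leadingCoeff_ne_zero.mpr hm₀ne)).isUnit
    rw [hm, hu.mul_right_dvd]
  have hmdeg : m.degree ≠ 0 := by
    intro h0
    have h1 := hmmon.degree_le_zero_iff_eq_one.mp h0.le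
    apply fibreIdeal_ne_top hinj 𝔭 f
    rw [Ideal.eq_top_iff_one, ← hJ, hmem, h1]
  have hroot : ∀ ξ : Ω, aeval ξ m = 0 → ∀ h ∈ J, aeval ξ h = 0 := by
    intro ξ hξ h hh
    obtain ⟨c, rfl⟩ := (hmem h).mp hh
    rw [map_mul, hξ, zero_mul]
  have huniq : ∀ ξ ξ' : Ω, aeval ξ m = 0 → aeval ξ' m = 0 → ξ = ξ' := by
    intro ξ ξ' h h'
    obtain ⟨ψ, hψ, hψf⟩ := exists_hom_of_root (𝔭 := 𝔭) (f := f) ξ (hroot ξ h)
    obtain ⟨ψ', hψ', hψf'⟩ := exists_hom_of_root (𝔭 := 𝔭) (f := f) ξ' (hroot ξ' h')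
    rw [← hψf, ← hψf']
    exact hsep Ω ψ ψ' (hψ.trans hψ'.symm)
  have hsepdeg : m.natSepDegree = 1 := by
    rw [natSepDegree_eq_of_isAlgClosed Ω, Finset.card_eq_one]
    obtain ⟨ξ, hξ⟩ := IsAlgClosed.exists_aeval_eq_zero Ω m hmdeg
    refine ⟨ξ, ?_⟩
    ext ξ'
    rw [Multiset.mem_toFinset, mem_aroots, Finset.mem_singleton]
    constructor
    · rintro ⟨_, h⟩
      exact huniq _ _ h hξ
    · rintro rfl
      exact ⟨hmmon.ne_zero, hξ⟩
  obtain ⟨M, n, y, hM, hmy⟩ := (Polynomial.Monic.natSepDegree_eq_one_iff p hmmon).mp hsepdeg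
  -- a pure power
  have hpow : ∃ (N : ℕ) (y' : κ), (X ^ p ^ N - C y' : κ[X]) ∈ J := by
    obtain ⟨n', hn'⟩ : ∃ n', M ≤ p ^ n' := ⟨M, (Nat.lt_pow_self (Fact.out : p.Prime).one_lt).le⟩
    refine ⟨n + n', y ^ p ^ n', ?_⟩
    rw [hmem, hmy]
    have h1 : (X ^ p ^ (n + n') - C (y ^ p ^ n') : κ[X]) = (X ^ p ^ n - C y) ^ p ^ n' := by
      rw [sub_pow_char_pow, ← pow_mul, ← pow_add, C_pow]
    rw [h1]
    exact pow_dvd_pow _ hn'
  obtain ⟨N, y', s, hs, g, hg0, hg⟩ := hpow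
  obtain ⟨s', hs', a, ha⟩ := resMap_surj 𝔭 y'
  refine ⟨s * s', fun hmem => (h𝔭.mem_or_mem hmem).elim hs hs', N, s * a,
    C (s * s') * X ^ p ^ N - C (s * a) - C s' * g, ?_, ?_⟩
  · intro j
    rw [← resMap_eq_zero, ← Polynomial.coeff_map]
    have h1 : (C (s * s') * X ^ p ^ N - C (s * a) - C s' * g).map (resMap 𝔭) = 0 := by
      have h2 : (C s' * g).map (resMap 𝔭) =
          C (resMap 𝔭 s') * (C (resMap 𝔭 s) * (X ^ p ^ N - C y')) := by
        rw [Polynomial.map_mul, Polynomial.map_C, hg]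
      rw [Polynomial.map_sub, h2]
      simp only [Polynomial.map_sub, Polynomial.map_mul, Polynomial.map_pow, Polynomial.map_X,
        Polynomial.map_C, map_mul]
      rw [← ha, C_mul]
      ring
    rw [h1, Polynomial.coeff_zero]
  · simp only [map_sub, map_mul, map_pow, aeval_C, aeval_X, hg0]
    ring

end Fibre

end Pool.Agent.H86.Polar
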