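import Mathlib
import Pool.Agent.H86.Polar.GR1

/-!
# Separating integral extensions are radicial
-/

set_option linter.unusedSectionVars false

namespace Pool.Agent.H86.Polar

open Polynomial

universe u
variable {A B : Type u} [CommRing A] [CommRing B] [Algebra A B]

lemma exists_mul_pow_mem {𝔠 𝔭 : Ideal A} (h : 𝔭 ∈ 𝔠.minimalPrimes) {x : A} (hx : x ∈ 𝔭) :
    ∃ s ∉ 𝔭, ∃ n : ℕ, s * x ^ n ∈ 𝔠 := by
  have h𝔭 : 𝔭.IsPrime := h.1.1
  by_contra hcon
  push Not at hcon
  have hdisj : Disjoint (𝔠 : Set A) (𝔭.primeCompl ⊔ Submonoid.powers x : Submonoid A) := by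
    rw [Set.disjoint_left]
    intro a ha ha'
    rw [SetLike.mem_coe, Submonoid.mem_sup] at ha'
    obtain ⟨s, hs, y, ⟨n, rfl⟩, rfl⟩ := ha'
    exact hcon s hs n ha
  obtain ⟨P, hP, hPc, hPd⟩ := Ideal.exists_le_prime_disjoint 𝔠 _ hdisj
  have hPle : P ≤ 𝔭 := by
    intro a ha
    by_contra hna
    rw [Set.disjoint_left] at hPd
    exact hPd ha (show a ∈ (𝔭.primeCompl ⊔ Submonoid.powers x : Submonoid A) from
      (le_sup_left : 𝔭.primeCompl ≤ _) hna)
  have hxP : x ∉ P := by
    intro hxP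
    rw [Set.disjoint_left] at hPd
    exact hPd hxP (show x ∈ (𝔭.primeCompl ⊔ Submonoid.powers x : Submonoid A) from
      (le_sup_right : Submonoid.powers x ≤ _) (Submonoid.mem_powers x))
  have := h.2 ⟨hP, hPc⟩ hPle
  exact hxP (this hx)

/-- elements `b` of `B` in the image of `A` -/
abbrev inA (A : Type u) {B : Type u} [CommRing A] [CommRing B] [Algebra A B] (b : B) : Prop :=
  b ∈ (algebraMap A B).range

lemma int_pow {f₁ : B} (hf : IsIntegral A f₁) (v : A) (hv : algebraMap A B v * f₁ ∈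
    (algebraMap A B).range) :
    ∃ D : ℕ, ∀ j : ℕ, algebraMap A B v ^ D * f₁ ^ j ∈ (algebraMap A B).range := by
  obtain ⟨g, hg, hg0⟩ := hf
  refine ⟨g.natDegree, ?_⟩
  intro j
  induction j using Nat.strong_induction_on with
  | _ j ih =>
    rcases Nat.lt_or_ge j g.natDegree with hj | hj
    · have h1 : algebraMap A B v ^ g.natDegree * f₁ ^ j =
          algebraMap A B v ^ (g.natDegree - j) * (algebraMap A B v * f₁) ^ j := by
        rw [mul_pow, ← mul_assoc, ← pow_add, Nat.sub_add_cancel hj.le]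
      rw [h1]
      exact Subring.mul_mem _ (Subring.pow_mem _ (RingHom.mem_range_self (algebraMap A B) _) _) (Subring.pow_mem _ hv _)
    · rw [eval₂_eq_sum_range, Finset.sum_range_succ] at hg0
      have hl : g.coeff g.natDegree = 1 := hg
      rw [hl, map_one, one_mul] at hg0
      have h2 : f₁ ^ g.natDegree = -∑ i ∈ Finset.range g.natDegree,
          algebraMap A B (g.coeff i) * f₁ ^ i := eq_neg_of_add_eq_zero_right hg0
      have h3 : algebraMap A B v ^ g.natDegree * f₁ ^ j =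
          -∑ i ∈ Finset.range g.natDegree, algebraMap A B (g.coeff i) *
            (algebraMap A B v ^ g.natDegree * f₁ ^ (j - g.natDegree + i)) := by
        have h4 : f₁ ^ j = f₁ ^ (j - g.natDegree) * f₁ ^ g.natDegree := by
          rw [← pow_add, Nat.sub_add_cancel hj]
        rw [h4, h2, mul_neg, mul_neg, Finset.mul_sum, Finset.mul_sum]
        congr 1
        refine Finset.sum_congr rfl fun i _ => ?_
        rw [pow_add]
        ring
      rw [h3]
      refine Subring.neg_mem _ (Subring.sum_mem _ fun i hi => Subring.mul_mem _ (RingHom.mem_range_self (algebraMap A B) _) ?_)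
      rw [Finset.mem_range] at hi
      exact ih _ (by omega)

lemma cond_mono (p : ℕ) [Fact p.Prime] {f : B} {a : A} {c c' : ℕ} (hc : c ≤ c')
    (h : ∀ j, algebraMap A B a ^ p ^ c * f ^ (j * p ^ c) ∈ (algebraMap A B).range) :
    ∀ j, algebraMap A B a ^ p ^ c' * f ^ (j * p ^ c') ∈ (algebraMap A B).range := by
  intro j
  have h1 : p ^ c ≤ p ^ c' := Nat.pow_le_pow_right (Fact.out : p.Prime).pos hc
  have h2 : algebraMap A B a ^ p ^ c' * f ^ (j * p ^ c') =
      algebraMap A B a ^ (p ^ c' - p ^ c) *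
        (algebraMap A B a ^ p ^ c * f ^ ((j * p ^ (c' - c)) * p ^ c)) := by
    rw [← mul_assoc, ← pow_add, Nat.sub_add_cancel h1, mul_assoc j, ← pow_add,
      Nat.sub_add_cancel hc]
  rw [h2]
  exact Subring.mul_mem _ (Subring.pow_mem _ (RingHom.mem_range_self (algebraMap A B) _) _) (h _)

/-- A conductor-like ideal. -/
def condIdeal (A : Type u) {B : Type u} [CommRing A] [CommRing B] [Algebra A B] (p : ℕ)
    [Fact p.Prime] [CharP B p] (f : B) : Ideal A where
  carrier := {a | ∃ c, ∀ j, algebraMap A B a ^ p ^ c * f ^ (j * p ^ c) ∈ (algebraMap A B).range}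
  zero_mem' := ⟨0, fun j => by simp⟩
  add_mem' := by
    rintro a b ⟨c, hc⟩ ⟨c', hc'⟩
    refine ⟨max c c', fun j => ?_⟩
    rw [map_add, add_pow_char_pow, add_mul]
    exact Subring.add_mem _ (cond_mono p (le_max_left _ _) hc j)
      (cond_mono p (le_max_right _ _) hc' j)
  smul_mem' := by
    rintro r a ⟨c, hc⟩
    refine ⟨c, fun j => ?_⟩
    rw [smul_eq_mul, map_mul, mul_pow, mul_assoc]
    exact Subring.mul_mem _ (Subring.pow_mem _ (RingHom.mem_range_self (algebraMap A B) _) _) (hc j)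

lemma mem_condIdeal {p : ℕ} [Fact p.Prime] [CharP B p] {f : B} {a : A} :
    a ∈ condIdeal A p f ↔
      ∃ c, ∀ j, algebraMap A B a ^ p ^ c * f ^ (j * p ^ c) ∈ (algebraMap A B).range := Iff.rfl

lemma condIdeal_radical {p : ℕ} [Fact p.Prime] [CharP B p] {f : B} {a : A} {n : ℕ}
    (h : a ^ n ∈ condIdeal A p f) : a ∈ condIdeal A p f := by
  obtain ⟨c, hc⟩ := h
  -- choose `c'` with `c ≤ c'` and `n * p ^ c ≤ p ^ c'`
  have hp : p.Prime := Fact.out
  refine ⟨c + n, fun j => ?_⟩
  have h1 : n * p ^ c ≤ p ^ (c + n) := by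
    rw [pow_add, mul_comm]
    exact Nat.mul_le_mul le_rfl (Nat.lt_pow_self hp.one_lt).le
  have h2 : algebraMap A B a ^ p ^ (c + n) * f ^ (j * p ^ (c + n)) =
      algebraMap A B a ^ (p ^ (c + n) - n * p ^ c) *
        (algebraMap A B (a ^ n) ^ p ^ c * f ^ ((j * p ^ n) * p ^ c)) := by
    rw [map_pow, ← pow_mul, ← mul_assoc, ← pow_add, Nat.sub_add_cancel h1, mul_assoc j, ← pow_add,
      add_comm c n]
  rw [h2]
  exact Subring.mul_mem _ (Subring.pow_mem _ (RingHom.mem_range_self (algebraMap A B) _) _) (hc _)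

/-- **GR lemma.** -/
theorem radical_of_separated (p : ℕ) [Fact p.Prime] [CharP A p] [CharP B p]
    [Algebra.IsIntegral A B] (hinj : Function.Injective (algebraMap A B)) (f : B)
    (hsep : ∀ (Ω : Type u) [Field Ω] [IsAlgClosed Ω] (φ ψ : B →+* Ω),
      φ.comp (algebraMap A B) = ψ.comp (algebraMap A B) → φ f = ψ f) :
    ∃ n : ℕ, f ^ p ^ n ∈ (algebraMap A B).range := by
  classical
  have hp : p.Prime := Fact.out
  by_contra hcon
  push Not at hcon
  set 𝔠 := condIdeal A p f with h𝔠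
  have hne : 𝔠 ≠ ⊤ := by
    intro htop
    have h1 : (1 : A) ∈ 𝔠 := by rw [htop]; trivial
    obtain ⟨c, hc⟩ := h1
    have := hc 1
    rw [map_one, one_pow, one_mul, one_mul] at this
    exact hcon c this
  obtain ⟨𝔭, h𝔭⟩ := Ideal.nonempty_minimalPrimes hne
  have hprime : 𝔭.IsPrime := h𝔭.1.1
  obtain ⟨s, hs, n, a, g, hg, hrel⟩ := fibre p hinj f hsep 𝔭
  have hx : ∀ j, ∃ t ∉ 𝔭, t * g.coeff j ∈ 𝔠 := by
    intro j
    obtain ⟨t, ht, m, hm⟩ := exists_mul_pow_mem h𝔭 (hg j)
    refine ⟨t, ht, ?_⟩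
    refine condIdeal_radical (n := m + 1) ?_
    have : (t * g.coeff j) ^ (m + 1) = (t ^ m * g.coeff j) * (t * g.coeff j ^ m) := by ring
    rw [this]
    exact 𝔠.mul_mem_left _ hm
  choose t ht htx using hx
  set τ := ∏ j ∈ Finset.range (g.natDegree + 1), t j with hτ
  have hτ𝔭 : τ ∉ 𝔭 := by
    intro hmem
    obtain ⟨j, _, hj⟩ := (hprime.prod_mem_iff).mp hmem
    exact ht j hj
  have hτx : ∀ j ∈ Finset.range (g.natDegree + 1), τ * g.coeff j ∈ 𝔠 := by
    intro j hj
    rw [hτ, ← Finset.mul_prod_erase _ _ hj]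
    have : t j * (∏ x ∈ (Finset.range (g.natDegree + 1)).erase j, t x) * g.coeff j =
        (∏ x ∈ (Finset.range (g.natDegree + 1)).erase j, t x) * (t j * g.coeff j) := by ring
    rw [this]
    exact 𝔠.mul_mem_left _ (htx j)
  have hc : ∀ j, ∃ c, j ∈ Finset.range (g.natDegree + 1) → ∀ i,
      algebraMap A B (τ * g.coeff j) ^ p ^ c * f ^ (i * p ^ c) ∈ (algebraMap A B).range := by
    intro j
    by_cases hj : j ∈ Finset.range (g.natDegree + 1)
    · obtain ⟨c, hc⟩ := hτx j hj
      exact ⟨c, fun _ => hc⟩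
    · exact ⟨0, fun h => absurd h hj⟩
  choose cf hcf using hc
  set c := (Finset.range (g.natDegree + 1)).sup cf with hcdef
  -- raise the relation to the power `p ^ c`
  have h1 : algebraMap A B ((τ * s) ^ p ^ c) * f ^ p ^ (n + c) ∈ (algebraMap A B).range := by
    have h2 : algebraMap A B ((τ * s) ^ p ^ c) * f ^ p ^ (n + c) =
        (algebraMap A B (τ * a)) ^ p ^ c + ∑ j ∈ Finset.range (g.natDegree + 1),
          algebraMap A B (τ * g.coeff j) ^ p ^ c * f ^ (j * p ^ c) := by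
      have h3 : algebraMap A B (τ * s) * f ^ p ^ n = algebraMap A B (τ * a) +
          ∑ j ∈ Finset.range (g.natDegree + 1), algebraMap A B (τ * g.coeff j) * f ^ j := by
        rw [map_mul, mul_assoc, hrel, aeval_eq_sum_range, mul_add, map_mul, Finset.mul_sum]
        congr 1
        refine Finset.sum_congr rfl fun j _ => ?_
        rw [Algebra.smul_def, map_mul, mul_assoc]
      have h4 := congrArg (fun x => x ^ p ^ c) h3
      rw [mul_pow, add_pow_char_pow, sum_pow_char_pow, ← pow_mul, ← pow_add] at h4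
      rw [map_pow, h4]
      congr 1
      refine Finset.sum_congr rfl fun j _ => ?_
      rw [mul_pow, ← pow_mul]
    rw [h2]
    refine Subring.add_mem _ (Subring.pow_mem _ (RingHom.mem_range_self (algebraMap A B) _) _) (Subring.sum_mem _ fun j hj => ?_)
    exact cond_mono p (Finset.le_sup hj) (hcf j hj) j
  have hint : IsIntegral A (f ^ p ^ (n + c)) := (Algebra.IsIntegral.isIntegral f).pow _
  obtain ⟨D, hD⟩ := int_pow hint _ h1
  have hmem : τ * s ∈ 𝔠 := by
    refine ⟨n + c + D, fun j => ?_⟩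
    have h5 : p ^ c * D ≤ p ^ (n + c + D) := by
      calc p ^ c * D ≤ p ^ c * p ^ D := Nat.mul_le_mul le_rfl (Nat.lt_pow_self hp.one_lt).le
        _ = p ^ (c + D) := by rw [pow_add]
        _ ≤ p ^ (n + c + D) := Nat.pow_le_pow_right hp.pos (by omega)
    have h6 : algebraMap A B (τ * s) ^ p ^ (n + c + D) * f ^ (j * p ^ (n + c + D)) =
        algebraMap A B (τ * s) ^ (p ^ (n + c + D) - p ^ c * D) *
          (algebraMap A B ((τ * s) ^ p ^ c) ^ D * (f ^ p ^ (n + c)) ^ (j * p ^ D)) := by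
      rw [map_pow, ← pow_mul, ← pow_mul, ← mul_assoc, ← pow_add, Nat.sub_add_cancel h5]
      congr 2
      rw [pow_add]
      ring
    rw [h6]
    exact Subring.mul_mem _ (Subring.pow_mem _ (RingHom.mem_range_self (algebraMap A B) _) _) (hD _)
  have := h𝔭.1.2 hmem
  exact (hprime.mem_or_mem this).elim hτ𝔭 hs

end Pool.Agent.H86.Polar
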