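import Mathlib
import Pool.Agent.H86.Polar.Aux1

/-!
# Lemma A: splitting off the coefficients of a factor

For points `z_{·,i}` (`i ∈ A`) the ring `PA k z A` is generated by the coefficients of
`∏_{i ∈ A} (c_none + ∑ c_l z_{l,i})`.  We show that for `B ⊆ A` the coefficients of the partial
product over `B` lie, after multiplication with a power of
`∏_{i ∈ B, j ∈ A \ B} (x_i - x_j)`, `x_i = z_{l₀,i}`, in every ring which contains `PA k z A` and the
`p^e`-th powers of the `x_i`.
-/

namespace Pool.Agent.H86.Polar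

open MvPolynomial

section Defs

variable {T : Type*} [CommRing T] {L I : Type*} [Fintype L]

/-- The generic linear form `c_none + ∑ c_l z_{l,i}`. -/
noncomputable def linForm (z : L → I → T) (i : I) : MvPolynomial (Option L) T :=
  X none + ∑ l, C (z l i) * X (some l)

/-- The product of the generic linear forms over `A`. -/
noncomputable def EE (z : L → I → T) (A : Finset I) : MvPolynomial (Option L) T :=
  ∏ i ∈ A, linForm z i

/-- `∏_{i ∈ B, j ∈ A \ B} (x_i - x_j)`. -/
def rho [DecidableEq I] (x : I → T) (A B : Finset I) : T :=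
  ∏ i ∈ B, ∏ j ∈ A \ B, (x i - x j)

lemma linForm_homog (z : L → I → T) (i : I) : (linForm z i).IsHomogeneous 1 := by
  unfold linForm
  refine (isHomogeneous_X T _).add (IsHomogeneous.sum _ _ _ fun l _ => ?_)
  exact (isHomogeneous_X T (some l)).C_mul _

lemma prod_linForm_homog (z : L → I → T) (A : Finset I) :
    (∏ i ∈ A, linForm z i).IsHomogeneous A.card := by
  have := IsHomogeneous.prod A (fun i => linForm z i) (fun _ => 1)
    (fun i _ => linForm_homog z i)
  simpa using this

/-- Specialisation: values of `EE` at elements of a subring containing the (images of the)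
coefficients. -/
lemma spec_mem {T'' : Type*} [CommRing T''] (z : L → I → T) (A : Finset I) (g : T →+* T'')
    (R : Subring T'') (hR : ∀ β, g ((EE z A).coeff β) ∈ R) (a : T'') (ha : a ∈ R) (b : L → T'')
    (hb : ∀ l, b l ∈ R) : ∏ i ∈ A, (a + ∑ l, g (z l i) * b l) ∈ R := by
  have h := eval₂_mem R (EE z A) g (fun o => Option.elim o a b) hR (by
    rintro (_ | l)
    · exact ha
    · exact hb l)
  convert h using 1
  unfold EE linForm
  rw [eval₂_prod]
  refine Finset.prod_congr rfl fun i _ => ?_
  simp [eval₂_add, eval₂_sum, eval₂_mul]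

end Defs

section LemmaA

variable {T : Type*} [CommRing T] {L I : Type*} [Fintype L] [DecidableEq I]

/-- `p^e`-th powers of elements of the closure of a set. -/
lemma pow_mem_of_closure (p : ℕ) [Fact p.Prime] [CharP T p] (e : ℕ) (s : Set T) (R : Subring T)
    (hs : ∀ x ∈ s, x ^ p ^ e ∈ R) {v : T} (hv : v ∈ Subring.closure s) : v ^ p ^ e ∈ R := by
  induction hv using Subring.closure_induction with
  | mem x hx => exact hs x hx
  | zero =>
    rw [zero_pow (pow_ne_zero _ (Fact.out : p.Prime).ne_zero)]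
    exact R.zero_mem
  | one => rw [one_pow]; exact R.one_mem
  | add x y _ _ hx hy => rw [add_pow_char_pow]; exact R.add_mem hx hy
  | neg x _ hx =>
    have : (-x) ^ p ^ e = -(x ^ p ^ e) := by
      have h0 := add_pow_char_pow (p := p) (n := e) x (-x)
      rw [add_neg_cancel, zero_pow (pow_ne_zero _ (Fact.out : p.Prime).ne_zero)] at h0
      exact (neg_eq_of_add_eq_zero_right h0.symm).symm
    rw [this]
    exact R.neg_mem hx
  | mul x y _ _ hx hy => rw [mul_pow]; exact R.mul_mem hx hy

lemma polyRing_pow_mem (p : ℕ) [Fact p.Prime] [CharP T p] (e : ℕ) (X R : Subring T)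
    (hs : ∀ x ∈ X, x ^ p ^ e ∈ R) {V : Polynomial T} (hV : V ∈ polyRing X) :
    V ^ p ^ e ∈ polyRing R := by
  rw [mem_polyRing] at hV
  rw [V.as_sum_range_C_mul_X_pow, sum_pow_char_pow]
  refine sum_mem fun m _ => ?_
  rw [mul_pow, ← Polynomial.C_pow]
  exact (polyRing R).mul_mem (polyC_mem_polyRing (hs _ (hV m)))
    ((polyRing R).pow_mem ((polyRing R).pow_mem polyX_mem_polyRing _) _)

/-- The interpolation polynomial `V` with `V(x_i) = ρ` for `i ∈ B`, `V(x_j) = 0` for
`j ∈ A \ B`. -/
noncomputable def interp (x : I → T) (A B : Finset I) : Polynomial T :=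
  Polynomial.C (rho x A B) - ∏ i ∈ B, (Polynomial.C (∏ j ∈ A \ B, (x i - x j))
    - ∏ j ∈ A \ B, (Polynomial.X - Polynomial.C (x j)))

lemma interp_eval_mem (x : I → T) (A B : Finset I) {i : I} (hi : i ∈ B) :
    (interp x A B).eval (x i) = rho x A B := by
  unfold interp
  rw [Polynomial.eval_sub, Polynomial.eval_C, Polynomial.eval_prod, Finset.prod_eq_zero hi,
    sub_zero]
  rw [Polynomial.eval_sub, Polynomial.eval_C, Polynomial.eval_prod, sub_eq_zero]
  refine Finset.prod_congr rfl fun j _ => ?_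
  simp

lemma interp_eval_not_mem (x : I → T) (A B : Finset I) {j : I} (hj : j ∈ A \ B) :
    (interp x A B).eval (x j) = 0 := by
  unfold interp
  rw [Polynomial.eval_sub, Polynomial.eval_C, Polynomial.eval_prod, sub_eq_zero]
  unfold rho
  refine Finset.prod_congr rfl fun i _ => ?_
  rw [Polynomial.eval_sub, Polynomial.eval_C, Polynomial.eval_prod]
  rw [Finset.prod_eq_zero (s := A \ B) (f := fun j' => Polynomial.eval (x j)
    (Polynomial.X - Polynomial.C (x j'))) hj (by simp), sub_zero]

lemma rho_mem (x : I → T) (A B : Finset I) (R : Subring T) (hx : ∀ i ∈ A, x i ∈ R)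
    (hBA : B ⊆ A) : rho x A B ∈ R := by
  unfold rho
  refine prod_mem fun i hi => prod_mem fun j hj => ?_
  exact R.sub_mem (hx _ (hBA hi)) (hx _ (Finset.mem_sdiff.mp hj).1)

lemma interp_mem (x : I → T) (A B : Finset I) (R : Subring T) (hx : ∀ i ∈ A, x i ∈ R)
    (hBA : B ⊆ A) : interp x A B ∈ polyRing R := by
  unfold interp
  refine (polyRing R).sub_mem (polyC_mem_polyRing (rho_mem x A B R hx hBA)) ?_
  refine prod_mem fun i hi => ?_
  refine (polyRing R).sub_mem (polyC_mem_polyRing ?_) ?_
  · refine prod_mem fun j hj => ?_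
    exact R.sub_mem (hx _ (hBA hi)) (hx _ (Finset.mem_sdiff.mp hj).1)
  · refine prod_mem fun j hj => ?_
    exact (polyRing R).sub_mem polyX_mem_polyRing
      (polyC_mem_polyRing (hx _ (Finset.mem_sdiff.mp hj).1))

lemma coeff_eq_zero_of_mem_span {Q : ℕ} {f : MvPolynomial (Option L) T}
    (hf : f ∈ Ideal.span (Set.range fun l : L => (X (some l) ^ Q : MvPolynomial (Option L) T)))
    (β : Option L →₀ ℕ) (hβ : ∀ l, β (some l) < Q) : f.coeff β = 0 := by
  classical
  rw [Ideal.mem_span_range_iff_exists_fun] at hf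
  obtain ⟨c, rfl⟩ := hf
  rw [coeff_sum]
  refine Finset.sum_eq_zero fun l _ => ?_
  rw [X_pow_eq_monomial, coeff_mul_monomial', if_neg]
  intro h
  have h1 := h (some l)
  have h2 := hβ l
  simp at h1
  omega

/-- The generic element `x_i + ∑ c_l z_{l,i}`. -/
noncomputable def gen (z : L → I → T) (l₀ : L) (i : I) : MvPolynomial (Option L) T :=
  C (z l₀ i) + ∑ l, C (z l i) * X (some l)

lemma coeff_prod_gen (z : L → I → T) (l₀ : L) (B : Finset I) (β : Option L →₀ ℕ)
    (hβ : β.degree = B.card) :
    (∏ i ∈ B, (X none + gen z l₀ i)).coeff β = (EE z B).coeff β := by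
  have h1 : ∀ i ∈ B, (X none + gen z l₀ i : MvPolynomial (Option L) T)
      = linForm z i + C (z l₀ i) := by
    intro i _
    unfold gen linForm
    ring
  rw [Finset.prod_congr rfl h1, Finset.prod_add, coeff_sum, Finset.sum_eq_single B]
  · simp [EE]
  · intro t ht htB
    have hcard : t.card < B.card :=
      Finset.card_lt_card (lt_of_le_of_ne (Finset.mem_powerset.mp ht) htB)
    have hconst : (∏ i ∈ B \ t, (C (z l₀ i) : MvPolynomial (Option L) T))
        = C (∏ i ∈ B \ t, z l₀ i) := by
      rw [map_prod]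
    rw [hconst, mul_comm, coeff_C_mul]
    have hh := prod_linForm_homog z t
    rw [hh.coeff_eq_zero (by rw [hβ]; omega), mul_zero]
  · intro h
    exact absurd (Finset.mem_powerset.mpr (le_refl _)) h

omit [DecidableEq I] in
lemma gen_congr (p : ℕ) [Fact p.Prime] [CharP T p] (e : ℕ) (z : L → I → T) (l₀ : L) (i : I)
    (V : Polynomial T) :
    (V.map C).eval (gen z l₀ i) ^ p ^ e - C (V.eval (z l₀ i)) ^ p ^ e ∈
      Ideal.span (Set.range fun l : L =>
        (X (some l) ^ (p ^ e) : MvPolynomial (Option L) T)) := by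
  have h1 : C (V.eval (z l₀ i)) = (V.map C).eval (C (z l₀ i) : MvPolynomial (Option L) T) := by
    rw [Polynomial.eval_map, Polynomial.eval₂_at_apply]
  rw [h1, ← sub_pow_char_pow]
  obtain ⟨w, hw⟩ := Polynomial.sub_dvd_eval_sub (gen z l₀ i) (C (z l₀ i)) (V.map C)
  rw [hw, mul_pow]
  refine Ideal.mul_mem_right _ _ ?_
  have h2 : gen z l₀ i - C (z l₀ i) = ∑ l, C (z l i) * X (some l) := by
    unfold gen
    ring
  rw [h2, sum_pow_char_pow]
  refine Ideal.sum_mem _ fun l _ => ?_
  rw [mul_pow]
  exact Ideal.mul_mem_left _ _ (Ideal.subset_span ⟨l, rfl⟩)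

/-- **Lemma A.** -/
theorem lemmaA (p : ℕ) [Fact p.Prime] [CharP T p] (z : L → I → T) (l₀ : L) (A B : Finset I)
    (hBA : B ⊆ A) (e : ℕ) (he : A.card < p ^ e) (R : Subring T)
    (hR : ∀ β, (EE z A).coeff β ∈ R) (hx : ∀ i ∈ A, z l₀ i ^ p ^ e ∈ R)
    (β : Option L →₀ ℕ) :
    rho (z l₀) A B ^ (p ^ e * A.card) * (EE z B).coeff β ∈ R := by
  classical
  by_cases hβ : β.degree = B.card
  swap
  · have : (EE z B).coeff β = 0 := (prod_linForm_homog z B).coeff_eq_zero hβ
    rw [this, mul_zero]
    exact R.zero_mem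
  set ρ := rho (z l₀) A B with hρ
  set X' : Subring T := Subring.closure (z l₀ '' A) with hX'
  have hxX : ∀ i ∈ A, z l₀ i ∈ X' := fun i hi => Subring.subset_closure ⟨i, hi, rfl⟩
  have hfrob : ∀ v ∈ X', v ^ p ^ e ∈ R := fun v hv =>
    pow_mem_of_closure p e _ R (by rintro _ ⟨i, hi, rfl⟩; exact hx i hi) hv
  set V := interp (z l₀) A B with hV
  have hVmem : V ^ p ^ e ∈ polyRing R :=
    polyRing_pow_mem p e X' R hfrob (interp_mem _ A B X' hxX hBA)
  set Ψ : Polynomial (MvPolynomial (Option L) T) :=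
    Polynomial.C (C (ρ ^ p ^ e)) + ((V ^ p ^ e).map C) *
      (Polynomial.C (X none) + Polynomial.X - 1) with hΨ
  set RC := coeffRing R (Option L) with hRC
  have hΨmem : Ψ ∈ polyRing RC := by
    rw [hΨ]
    refine (polyRing RC).add_mem ?_ ((polyRing RC).mul_mem ?_ ?_)
    · exact polyC_mem_polyRing (C_mem_coeffRing
        (hfrob _ (rho_mem _ A B X' hxX hBA)))
    · rw [mem_polyRing]
      intro n
      rw [Polynomial.coeff_map]
      exact C_mem_coeffRing ((mem_polyRing.mp hVmem) n)
    · exact (polyRing RC).sub_mem ((polyRing RC).add_mem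
        (polyC_mem_polyRing (X_mem_coeffRing _)) polyX_mem_polyRing) (polyRing RC).one_mem
  have hFmem : (∏ i ∈ A, (Polynomial.X - Polynomial.C (gen z l₀ i))) ∈ polyRing RC := by
    let b : L → Polynomial (MvPolynomial (Option L) T) :=
      fun l => -Polynomial.C ((X (some l) + (if l = l₀ then 1 else 0) : MvPolynomial (Option L) T))
    have hb : ∀ l, b l ∈ polyRing RC := by
      intro l
      refine (polyRing RC).neg_mem (polyC_mem_polyRing (RC.add_mem (X_mem_coeffRing _) ?_))
      split_ifs
      · exact RC.one_mem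
      · exact RC.zero_mem
    have h := spec_mem z A
      ((Polynomial.C : MvPolynomial (Option L) T →+* Polynomial (MvPolynomial (Option L) T)).comp C)
      (polyRing RC) (fun β => polyC_mem_polyRing (C_mem_coeffRing (hR β)))
      Polynomial.X polyX_mem_polyRing b hb
    have hi : ∀ i, (Polynomial.X - Polynomial.C (gen z l₀ i)) = Polynomial.X + ∑ l,
        ((Polynomial.C : MvPolynomial (Option L) T →+* Polynomial (MvPolynomial (Option L) T)).comp
          C) (z l i) * b l := by
      intro i
      have h1 : gen z l₀ i = ∑ l, C (z l i) * (X (some l) + (if l = l₀ then 1 else 0)) := by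
        unfold gen
        simp only [mul_add, Finset.sum_add_distrib]
        rw [add_comm]
        congr 1
        simp
      rw [h1, map_sum, sub_eq_add_neg, ← Finset.sum_neg_distrib]
      congr 1
      refine Finset.sum_congr rfl fun l _ => ?_
      simp only [b, RingHom.coe_comp, Function.comp_apply, map_mul]
      ring
    rw [Finset.prod_congr rfl fun i _ => hi i]
    exact h
  have hΦ := prod_eval_mem RC A (gen z l₀) Ψ hFmem hΨmem
  set K := Ideal.span (Set.range fun l : L =>
    (X (some l) ^ (p ^ e) : MvPolynomial (Option L) T)) with hK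
  have hfac : ∀ i ∈ A, Ideal.Quotient.mk K (Ψ.eval (gen z l₀ i)) =
      Ideal.Quotient.mk K (C (ρ ^ p ^ e) * if i ∈ B then (X none + gen z l₀ i) else 1) := by
    intro i hi
    have hc := gen_congr p e z l₀ i V
    rw [← hK] at hc
    rw [Ideal.Quotient.eq]
    have hev : Ψ.eval (gen z l₀ i) = C (ρ ^ p ^ e) +
        (V.map C).eval (gen z l₀ i) ^ p ^ e * (X none + gen z l₀ i - 1) := by
      rw [hΨ]
      simp [Polynomial.map_pow]
    rw [hev]
    by_cases hiB : i ∈ B
    · rw [if_pos hiB]
      rw [hV, interp_eval_mem _ A B hiB, ← hV, ← hρ] at hc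
      have : C (ρ ^ p ^ e) + Polynomial.eval (gen z l₀ i) (Polynomial.map C V) ^ p ^ e *
          (X none + gen z l₀ i - 1) - C (ρ ^ p ^ e) * (X none + gen z l₀ i)
          = (Polynomial.eval (gen z l₀ i) (Polynomial.map C V) ^ p ^ e - C ρ ^ p ^ e) *
            (X none + gen z l₀ i - 1) := by
        rw [map_pow]
        ring
      rw [this]
      exact Ideal.mul_mem_right _ _ hc
    · rw [if_neg hiB]
      rw [hV, interp_eval_not_mem _ A B (Finset.mem_sdiff.mpr ⟨hi, hiB⟩), ← hV, map_zero,
        zero_pow (pow_ne_zero _ (Fact.out : p.Prime).ne_zero), sub_zero] at hc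
      have : C (ρ ^ p ^ e) + Polynomial.eval (gen z l₀ i) (Polynomial.map C V) ^ p ^ e *
          (X none + gen z l₀ i - 1) - C (ρ ^ p ^ e) * 1
          = (Polynomial.eval (gen z l₀ i) (Polynomial.map C V) ^ p ^ e) *
            (X none + gen z l₀ i - 1) := by
        ring
      rw [this]
      exact Ideal.mul_mem_right _ _ hc
  have hprod : (∏ i ∈ A, Ψ.eval (gen z l₀ i)) -
      C (ρ ^ (p ^ e * A.card)) * ∏ i ∈ B, (X none + gen z l₀ i) ∈ K := by
    rw [← Ideal.Quotient.eq, map_prod, Finset.prod_congr rfl hfac, ← map_prod,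
      Finset.prod_mul_distrib, Finset.prod_const, Finset.prod_ite_mem,
      Finset.inter_eq_right.mpr hBA, ← map_pow, ← pow_mul]
  have hco := coeff_eq_zero_of_mem_span hprod β (by
    intro l
    have h1 : β (some l) ≤ β.degree := Finsupp.le_degree _ _
    have h2 := Finset.card_le_card hBA
    omega)
  rw [coeff_sub, coeff_C_mul, coeff_prod_gen z l₀ B β hβ, sub_eq_zero] at hco
  rw [← hco]
  exact (mem_coeffRing.mp hΦ) β

end LemmaA

end Pool.Agent.H86.Polar
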