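import Mathlib
import Pool.Agent.H86.Polar.LemmaA

/-!
# The bounded submodules

`PM k z A` is the `k`-algebra generated by the coefficients of `EE z A`, as a `k`-submodule, and
`bm k z A w` is the span of the products, over `i ∈ A`, of at most one power `z_{l,i}^{w t}` for
each `t`.
-/

set_option linter.unusedSectionVars false

namespace Pool.Agent.H86.Polar

open MvPolynomial

section Defs

variable (k : Type*) {T : Type*} [CommRing k] [CommRing T] [Algebra k T] {L I : Type*} [Fintype L]

/-- The algebra generated by the coefficients of `EE z A`. -/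
noncomputable def PA (z : L → I → T) (A : Finset I) : Subalgebra k T :=
  Algebra.adjoin k (Set.range fun β => (EE z A).coeff β)

/-- `PA` as a submodule. -/
noncomputable def PM (z : L → I → T) (A : Finset I) : Submodule k T :=
  Subalgebra.toSubmodule (PA k z A)

/-- `1` or a power `z_{l,i}^w`. -/
def val (z : L → I → T) (i : I) (w : ℕ) (o : Option L) : T :=
  o.elim 1 fun l => z l i ^ w

/-- The span of `1` and the powers `z_{l,i}^w`, `l ∈ L`. -/
noncomputable def ee (z : L → I → T) (i : I) (w : ℕ) : Submodule k T :=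
  Submodule.span k (Set.range (val z i w))

/-- The bounded submodule with weights `w`. -/
noncomputable def bm (z : L → I → T) (A : Finset I) {Θ : Type*} [Fintype Θ] (w : Θ → ℕ) :
    Submodule k T :=
  ∏ i ∈ A, ∏ t, ee k z i (w t)

/-- The ring generated by the coefficients of `EE z A` and the `Q`-th powers of the pivot row. -/
noncomputable def RA (z : L → I → T) (l₀ : L) (A : Finset I) (Q : ℕ) : Subalgebra k T :=
  Algebra.adjoin k ((Set.range fun β => (EE z A).coeff β) ∪ ((fun i => z l₀ i ^ Q) '' A))

end Defs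

section Basic

variable {k : Type*} {T : Type*} [CommRing k] [CommRing T] [Algebra k T] {L I : Type*} [Fintype L]

lemma coeff_mem_PA (z : L → I → T) (A : Finset I) (β : Option L →₀ ℕ) :
    (EE z A).coeff β ∈ PA k z A := Algebra.subset_adjoin ⟨β, rfl⟩

lemma one_mem_ee (z : L → I → T) (i : I) (w : ℕ) : (1 : T) ∈ ee k z i w :=
  Submodule.subset_span ⟨none, rfl⟩

lemma pow_mem_ee (z : L → I → T) (i : I) (w : ℕ) (l : L) : z l i ^ w ∈ ee k z i w :=
  Submodule.subset_span ⟨some l, rfl⟩

lemma one_le_ee (z : L → I → T) (i : I) (w : ℕ) : (1 : Submodule k T) ≤ ee k z i w :=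
  Submodule.one_le.mpr (one_mem_ee z i w)

lemma one_le_PM (z : L → I → T) (A : Finset I) : (1 : Submodule k T) ≤ PM k z A :=
  Submodule.one_le.mpr (PA k z A).one_mem

lemma PM_mul_PM (z : L → I → T) (A : Finset I) : PM k z A * PM k z A = PM k z A :=
  (PA k z A).isIdempotentElem_toSubmodule

lemma one_le_prod {ι : Type*} (s : Finset ι) (f : ι → Submodule k T) (h : ∀ i ∈ s, 1 ≤ f i) :
    1 ≤ ∏ i ∈ s, f i := by
  classical
  induction s using Finset.induction with
  | empty => simp
  | insert a s ha ih =>
    rw [Finset.prod_insert ha]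
    calc (1 : Submodule k T) = 1 * 1 := (one_mul 1).symm
      _ ≤ _ := mul_le_mul' (h a (Finset.mem_insert_self _ _))
        (ih fun i hi => h i (Finset.mem_insert_of_mem hi))

lemma one_le_bm (z : L → I → T) (A : Finset I) {Θ : Type*} [Fintype Θ] (w : Θ → ℕ) :
    (1 : Submodule k T) ≤ bm k z A w :=
  one_le_prod _ _ fun i _ => one_le_prod _ _ fun t _ => one_le_ee z i (w t)

lemma bm_sum (z : L → I → T) (A : Finset I) {Θ Θ' : Type*} [Fintype Θ] [Fintype Θ'] (w : Θ → ℕ)
    (w' : Θ' → ℕ) : bm k z A (Sum.elim w w') = bm k z A w * bm k z A w' := by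
  unfold bm
  rw [← Finset.prod_mul_distrib]
  refine Finset.prod_congr rfl fun i _ => ?_
  rw [Fintype.prod_sum_type]
  simp

lemma bm_const (z : L → I → T) (A : Finset I) (K q : ℕ) :
    bm k z A (fun _ : Fin K => q) = ∏ i ∈ A, ee k z i q ^ K := by
  unfold bm
  simp

lemma bm_sdiff [DecidableEq I] (z : L → I → T) (A B : Finset I) (hBA : B ⊆ A) {Θ : Type*}
    [Fintype Θ] (w : Θ → ℕ) : bm k z A w = bm k z (A \ B) w * bm k z B w := by
  unfold bm
  rw [Finset.prod_sdiff hBA]

/-- absorb powers -/
lemma pow_mul_le {X Y : Submodule k T} (h : X * Y ≤ Y) (n : ℕ) : X ^ n * Y ≤ Y := by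
  induction n with
  | zero => simp
  | succ n ih =>
    rw [pow_succ, mul_assoc]
    exact (mul_le_mul' le_rfl h).trans ih

lemma prod_mul_le {ι : Type*} (s : Finset ι) (X : ι → Submodule k T) {Y : Submodule k T}
    (h : ∀ i ∈ s, X i * Y ≤ Y) : (∏ i ∈ s, X i) * Y ≤ Y := by
  classical
  induction s using Finset.induction with
  | empty => simp
  | insert a s ha ih =>
    rw [Finset.prod_insert ha, mul_assoc]
    exact (mul_le_mul' le_rfl (ih fun i hi => h i (Finset.mem_insert_of_mem hi))).trans
      (h a (Finset.mem_insert_self _ _))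

/-- product of spans of ranges -/
lemma prod_span_range {ι O : Type*} [Nonempty O] (s : Finset ι) (f : ι → O → T) :
    ∏ i ∈ s, Submodule.span k (Set.range (f i)) =
      Submodule.span k (Set.range fun c : ι → O => ∏ i ∈ s, f i (c i)) := by
  classical
  induction s using Finset.induction with
  | empty =>
    simp [Submodule.one_eq_span, Set.range_const]
  | insert a s ha ih =>
    rw [Finset.prod_insert ha, ih, Submodule.span_mul_span]
    congr 1
    ext x
    simp only [Set.mem_mul, Set.mem_range, exists_exists_eq_and]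
    constructor
    · rintro ⟨o, c, rfl⟩
      refine ⟨Function.update c a o, ?_⟩
      rw [Finset.prod_insert ha, Function.update_self]
      congr 1
      refine Finset.prod_congr rfl fun i hi => ?_
      rw [Function.update_of_ne (by rintro rfl; exact ha hi)]
    · rintro ⟨c, rfl⟩
      refine ⟨c a, c, ?_⟩
      rw [Finset.prod_insert ha]

lemma bm_eq_span (z : L → I → T) (A : Finset I) {Θ : Type*} [Fintype Θ] (w : Θ → ℕ) :
    bm k z A w = Submodule.span k
      (Set.range fun s : I → Θ → Option L => ∏ i ∈ A, ∏ t, val z i (w t) (s i t)) := by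
  classical
  unfold bm ee
  have h1 : ∀ i, ∏ t, Submodule.span k (Set.range (val z i (w t))) =
      Submodule.span k (Set.range fun c : Θ → Option L => ∏ t, val z i (w t) (c t)) := fun i =>
    prod_span_range Finset.univ fun t => val z i (w t)
  rw [Finset.prod_congr rfl fun i _ => h1 i,
    prod_span_range A (fun i (c : Θ → Option L) => ∏ t, val z i (w t) (c t))]

/-- the `p^{c+1}` powers lie in the `p`-th power of the span of `p^c`-powers -/
lemma ee_le_pow (z : L → I → T) (i : I) (w m : ℕ) : ee k z i (w * m) ≤ ee k z i w ^ m := by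
  unfold ee
  rw [Submodule.span_le]
  rintro _ ⟨o, rfl⟩
  rcases o with _ | l
  · have : (1 : T) ∈ ee k z i w ^ m := by
      have := Submodule.pow_mem_pow (ee k z i w) (one_mem_ee z i w) m
      simpa using this
    exact this
  · have := Submodule.pow_mem_pow (ee k z i w) (pow_mem_ee z i w l) m
    rw [← pow_mul] at this
    exact this

end Basic

/-- `Good k p A c w`: for all rings `T` of characteristic `p` and all families of points, the
`PM`-module `PM * bm` is stable under multiplication by all `z_{l,i}^{p^c}`, `i ∈ A`. -/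
def Good.{u} (k : Type u) [CommRing k] (p : ℕ) {I : Type} (A : Finset I) (c : ℕ) {Θ : Type}
    [Fintype Θ] (w : Θ → ℕ) : Prop :=
  ∀ (L : Type) [Fintype L] (T : Type u) [CommRing T] [Algebra k T] [CharP T p] (z : L → I → T),
    ∀ i ∈ A, ee k z i (p ^ c) * (PM k z A * bm k z A w) ≤ PM k z A * bm k z A w

section GoodMono

universe u
variable {k : Type u} [CommRing k] {p : ℕ} {I : Type} {A : Finset I} {c : ℕ} {Θ : Type} [Fintype Θ]
  {w : Θ → ℕ}

lemma Good.sum (h : Good k p A c w) {Θ' : Type} [Fintype Θ'] (w' : Θ' → ℕ) :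
    Good k p A c (Sum.elim w w') := by
  intro L _ T _ _ _ z i hi
  rw [bm_sum, ← mul_assoc (PM k z A), ← mul_assoc (ee k z i (p ^ c))]
  exact mul_le_mul' (h L T z i hi) le_rfl

lemma Good.mono (h : Good k p A c w) {c' : ℕ} (hc : c ≤ c') : Good k p A c' w := by
  intro L _ T _ _ _ z i hi
  obtain ⟨d, rfl⟩ := Nat.exists_eq_add_of_le hc
  rw [pow_add]
  exact (mul_le_mul' (ee_le_pow z i _ _) le_rfl).trans (pow_mul_le (h L T z i hi) _)

end GoodMono

end Pool.Agent.H86.Polar
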