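import Mathlib
import Pool.Agent.H86.Polar.Semi

/-!
# Clearing denominators
-/

set_option linter.unusedSectionVars false

namespace Pool.Agent.H86.Polar

open MvPolynomial

section R1

variable {k : Type*} {T : Type*} [CommRing k] [CommRing T] [Algebra k T] {L I : Type*} [Fintype L]

lemma coeff_mem_RA (z : L → I → T) (l₀ : L) (A : Finset I) (Q : ℕ) (β : Option L →₀ ℕ) :
    (EE z A).coeff β ∈ RA k z l₀ A Q := Algebra.subset_adjoin (Or.inl ⟨β, rfl⟩)

lemma pow_mem_RA (z : L → I → T) (l₀ : L) (A : Finset I) (Q : ℕ) {i : I} (hi : i ∈ A) :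
    z l₀ i ^ Q ∈ RA k z l₀ A Q := Algebra.subset_adjoin (Or.inr ⟨i, hi, rfl⟩)

lemma pivot_poly_mem (z : L → I → T) (l₀ : L) (A : Finset I) :
    (∏ j ∈ A, (Polynomial.X - Polynomial.C (z l₀ j))) ∈ polyRing (PA k z A).toSubring := by
  classical
  have h := spec_mem z A (Polynomial.C : T →+* Polynomial T) (polyRing (PA k z A).toSubring)
    (fun β => polyC_mem_polyRing (coeff_mem_PA (k := k) z A β)) Polynomial.X polyX_mem_polyRing
    (fun l => if l = l₀ then -1 else 0) (by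
      intro l
      split_ifs
      · exact (polyRing _).neg_mem (polyRing _).one_mem
      · exact (polyRing _).zero_mem)
  convert h using 1
  refine Finset.prod_congr rfl fun j _ => ?_
  simp [sub_eq_add_neg]

/-- span of the powers `y^0, …, y^{N-1}` -/
noncomputable def Yp (k : Type*) {T : Type*} [CommRing k] [CommRing T] [Algebra k T] (y : T)
    (N : ℕ) : Submodule k T :=
  Submodule.span k (Set.range fun m : Fin N => y ^ (m : ℕ))

lemma Yp_mem (y : T) {N m : ℕ} (h : m < N) : y ^ m ∈ Yp k y N :=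
  Submodule.subset_span ⟨⟨m, h⟩, rfl⟩

lemma mul_Yp_le (p : ℕ) [Fact p.Prime] [CharP T p] (z : L → I → T) (l₀ : L) (A : Finset I) {i : I}
    (hi : i ∈ A) (c : ℕ) :
    Submodule.span k {z l₀ i ^ p ^ c} * Yp k (z l₀ i ^ p ^ c) A.card ≤
      PM k z A * Yp k (z l₀ i ^ p ^ c) A.card := by
  classical
  nontriviality T
  set N := A.card with hN
  set y := z l₀ i ^ p ^ c with hy
  have hle : Yp k y N ≤ PM k z A * Yp k y N := by
    calc Yp k y N = 1 * Yp k y N := (one_mul _).symm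
      _ ≤ _ := mul_le_mul' (one_le_PM z A) le_rfl
  -- the relation
  have hrel : y ^ N ∈ PM k z A * Yp k y N := by
    obtain ⟨F, hF⟩ : ∃ F, F = ∏ j ∈ A, (Polynomial.X - Polynomial.C (z l₀ j)) := ⟨_, rfl⟩
    have hmem := pivot_poly_mem (k := k) z l₀ A
    rw [← hF, mem_polyRing] at hmem
    have hdeg : F.natDegree = N := by
      rw [hF, Polynomial.natDegree_prod_of_monic _ _ fun j _ => Polynomial.monic_X_sub_C _]
      simp [hN]
    have hmon : F.Monic := by
      rw [hF]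
      exact Polynomial.monic_prod_of_monic _ _ fun j _ => Polynomial.monic_X_sub_C _
    have hroot : F.eval (z l₀ i) = 0 := by
      rw [hF, Polynomial.eval_prod]
      exact Finset.prod_eq_zero hi (by simp)
    rw [Polynomial.eval_eq_sum_range, hdeg, Finset.sum_range_succ] at hroot
    have hl : F.coeff N = 1 := by rw [← hdeg]; exact hmon
    rw [hl, one_mul] at hroot
    have h2 : (z l₀ i) ^ N = -∑ m ∈ Finset.range N, F.coeff m * z l₀ i ^ m :=
      eq_neg_of_add_eq_zero_right hroot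
    have h3 : y ^ N = (-∑ m ∈ Finset.range N, F.coeff m * z l₀ i ^ m) ^ p ^ c := by
      rw [← h2, hy, ← pow_mul, ← pow_mul, mul_comm]
    have h4 : y ^ N = ∑ m ∈ Finset.range N, (-(F.coeff m)) ^ p ^ c * y ^ m := by
      rw [h3, ← Finset.sum_neg_distrib, sum_pow_char_pow]
      refine Finset.sum_congr rfl fun m _ => ?_
      rw [← neg_mul, mul_pow, hy, ← pow_mul, ← pow_mul, mul_comm m]
    rw [h4]
    refine Submodule.sum_mem _ fun m hm => ?_
    refine Submodule.mul_mem_mul ?_ (Yp_mem y (Finset.mem_range.mp hm))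
    exact (PA k z A).pow_mem ((PA k z A).neg_mem (hmem m)) _
  rw [Submodule.mul_le]
  intro a ha b hb
  rw [Submodule.mem_span_singleton] at ha
  obtain ⟨u, rfl⟩ := ha
  rw [smul_mul_assoc]
  refine Submodule.smul_mem _ _ ?_
  unfold Yp at hb
  induction hb using Submodule.span_induction with
  | mem x hx =>
    obtain ⟨m, rfl⟩ := hx
    simp only
    rw [← pow_succ']
    rcases Nat.lt_or_ge ((m : ℕ) + 1) N with h | h
    · exact hle (Yp_mem y h)
    · have : (m : ℕ) + 1 = N := le_antisymm m.2 h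
      rw [this]
      exact hrel
  | zero => simp
  | add x x' _ _ h h' => rw [mul_add]; exact Submodule.add_mem _ h h'
  | smul a x _ h => rw [mul_smul_comm]; exact Submodule.smul_mem _ _ h

/-- The submodule `PM * ∏ Yp`. -/
noncomputable def SY (k : Type*) {T : Type*} [CommRing k] [CommRing T] [Algebra k T]
    {L I : Type*} [Fintype L] (z : L → I → T) (l₀ : L) (A : Finset I) (q : ℕ) : Submodule k T :=
  PM k z A * ∏ i ∈ A, Yp k (z l₀ i ^ q) A.card

lemma span_mul_SY_le (p : ℕ) [Fact p.Prime] [CharP T p] (z : L → I → T) (l₀ : L) (A : Finset I)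
    {i : I} (hi : i ∈ A) (c : ℕ) :
    Submodule.span k {z l₀ i ^ p ^ c} * SY k z l₀ A (p ^ c) ≤ SY k z l₀ A (p ^ c) := by
  classical
  unfold SY
  rw [← Finset.mul_prod_erase A _ hi]
  set P := PM k z A
  set Y := Yp k (z l₀ i ^ p ^ c) A.card
  set Z := ∏ x ∈ A.erase i, Yp k (z l₀ x ^ p ^ c) A.card
  calc Submodule.span k {z l₀ i ^ p ^ c} * (P * (Y * Z))
      = P * ((Submodule.span k {z l₀ i ^ p ^ c} * Y) * Z) := by ring
    _ ≤ P * ((P * Y) * Z) :=
        mul_le_mul' le_rfl (mul_le_mul' (mul_Yp_le p z l₀ A hi c) le_rfl)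
    _ = (P * P) * (Y * Z) := by ring
    _ = P * (Y * Z) := by rw [PM_mul_PM]

lemma RA_mul_SY (p : ℕ) [Fact p.Prime] [CharP T p] (z : L → I → T) (l₀ : L) (A : Finset I)
    {c e : ℕ} (hce : c ≤ e) {u : T} (hu : u ∈ RA k z l₀ A (p ^ e)) :
    ∀ s ∈ SY k z l₀ A (p ^ c), u * s ∈ SY k z l₀ A (p ^ c) := by
  classical
  unfold RA at hu
  induction hu using Algebra.adjoin_induction with
  | mem x hx =>
    intro s hs
    rcases hx with ⟨β, rfl⟩ | ⟨i, hi, rfl⟩
    · have h1 : (EE z A).coeff β * s ∈ PM k z A * SY k z l₀ A (p ^ c) :=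
        Submodule.mul_mem_mul (coeff_mem_PA z A β) hs
      unfold SY at h1 ⊢
      rwa [← mul_assoc, PM_mul_PM] at h1
    · have key : ∀ m, (z l₀ i ^ p ^ c) ^ m * s ∈ SY k z l₀ A (p ^ c) := by
        intro m
        induction m with
        | zero => simpa using hs
        | succ m ih =>
          rw [pow_succ', mul_assoc]
          exact span_mul_SY_le p z l₀ A hi c
            (Submodule.mul_mem_mul (Submodule.mem_span_singleton_self _) ih)
      obtain ⟨d, rfl⟩ := Nat.exists_eq_add_of_le hce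
      have := key (p ^ d)
      rw [← pow_mul, ← pow_add] at this
      exact this
  | algebraMap r =>
    intro s hs
    rw [← Algebra.smul_def]
    exact Submodule.smul_mem _ _ hs
  | add x y _ _ hx hy =>
    intro s hs
    rw [add_mul]
    exact Submodule.add_mem _ (hx s hs) (hy s hs)
  | mul x y _ _ hx hy =>
    intro s hs
    rw [mul_assoc]
    exact hx _ (hy s hs)

lemma Yp_le_pow (z : L → I → T) (l₀ : L) (i : I) (q N : ℕ) :
    Yp k (z l₀ i ^ q) N ≤ ee k z i q ^ (N - 1) := by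
  unfold Yp
  rw [Submodule.span_le]
  rintro _ ⟨m, rfl⟩
  have h1 := Submodule.mul_mem_mul (Submodule.pow_mem_pow (ee k z i q) (pow_mem_ee z i q l₀) m)
    (Submodule.pow_mem_pow (ee k z i q) (one_mem_ee z i q) (N - 1 - m))
  rw [← pow_add, one_pow, mul_one] at h1
  have h2 : (m : ℕ) + (N - 1 - m) = N - 1 := by
    have := m.2
    omega
  rw [h2] at h1
  exact h1

/-- **R1** -/
lemma RA_le (p : ℕ) [Fact p.Prime] [CharP T p] (z : L → I → T) (l₀ : L) (A : Finset I)
    {c e : ℕ} (hce : c ≤ e) :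
    Subalgebra.toSubmodule (RA k z l₀ A (p ^ e)) ≤
      PM k z A * bm k z A (fun _ : Fin (A.card - 1) => p ^ c) := by
  have h1 : (1 : T) ∈ SY k z l₀ A (p ^ c) := by
    unfold SY
    rw [← Submodule.one_le]
    calc (1 : Submodule k T) = 1 * 1 := (one_mul 1).symm
      _ ≤ _ := mul_le_mul' (one_le_PM z A) (one_le_prod _ _ fun i hi => by
        rw [Submodule.one_le]
        have := Yp_mem (k := k) (z l₀ i ^ p ^ c) (N := A.card) (m := 0)
          (Finset.card_pos.mpr ⟨i, hi⟩)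
        simpa using this)
  intro u hu
  have h2 := RA_mul_SY p z l₀ A hce hu 1 h1
  rw [mul_one] at h2
  revert h2
  unfold SY
  rw [bm_const]
  intro h2
  refine (mul_le_mul' (le_refl (PM k z A)) ?_) h2
  exact Finset.prod_le_prod' fun i _ => Yp_le_pow z l₀ i _ _

end R1

section Sat

variable {k : Type*} {T : Type*} [CommRing k] [CommRing T] [Algebra k T]

/-- elements which are moved into `M` by a power of `r`. -/
def sat (r : T) (M : Submodule k T) (hM : ∀ x ∈ M, r * x ∈ M) : Submodule k T where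
  carrier := {x | ∃ m, r ^ m * x ∈ M}
  zero_mem' := ⟨0, by simp⟩
  add_mem' := by
    rintro a b ⟨m, hm⟩ ⟨n, hn⟩
    have hpow : ∀ j, ∀ x ∈ M, r ^ j * x ∈ M := by
      intro j
      induction j with
      | zero => intro x hx; simpa using hx
      | succ j ih => intro x hx; rw [pow_succ', mul_assoc]; exact hM _ (ih x hx)
    refine ⟨m + n, ?_⟩
    have : r ^ (m + n) * (a + b) = r ^ n * (r ^ m * a) + r ^ m * (r ^ n * b) := by ring
    rw [this]
    exact M.add_mem (hpow _ _ hm) (hpow _ _ hn)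
  smul_mem' := by
    rintro c x ⟨m, hm⟩
    refine ⟨m, ?_⟩
    rw [mul_smul_comm]
    exact M.smul_mem _ hm

end Sat

section R4

variable {k : Type*} {T : Type*} [CommRing k] [CommRing T] [Algebra k T] {L I : Type*} [Fintype L]
  [DecidableEq I]

/-- `∏_{i ∈ B, j ∈ A \ B} (x_i - x_j) (x_j - x_i)` -/
def Del (x : I → T) (A B : Finset I) : T := rho x A B * rho x A (A \ B)

lemma Del_mem (x : I → T) (A B : Finset I) (hBA : B ⊆ A) (R : Subring T) (hx : ∀ i ∈ A, x i ∈ R) :
    Del x A B ∈ R :=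
  R.mul_mem (rho_mem x A B R hx hBA) (rho_mem x A (A \ B) R hx Finset.sdiff_subset)

lemma pow_mem_RA_of_closure (p : ℕ) [Fact p.Prime] [CharP T p] (z : L → I → T) (l₀ : L)
    (A : Finset I) (e : ℕ) {v : T} (hv : v ∈ Subring.closure (z l₀ '' A)) :
    v ^ p ^ e ∈ RA k z l₀ A (p ^ e) := by
  refine pow_mem_of_closure p e _ (RA k z l₀ A (p ^ e)).toSubring ?_ hv
  rintro _ ⟨i, hi, rfl⟩
  exact pow_mem_RA z l₀ A _ hi

lemma PM_le_sat (p : ℕ) [Fact p.Prime] [CharP T p] (z : L → I → T) (l₀ : L)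
    (A B : Finset I) (hBA : B ⊆ A) (e : ℕ) (he : A.card < p ^ e) (r : T)
    (hr : ∃ s ∈ RA k z l₀ A (p ^ e), r = s * rho (z l₀) A B ^ (p ^ e * A.card))
    (hM : ∀ x ∈ Subalgebra.toSubmodule (RA k z l₀ A (p ^ e)),
      r * x ∈ Subalgebra.toSubmodule (RA k z l₀ A (p ^ e))) :
    PM k z B ≤ sat r (Subalgebra.toSubmodule (RA k z l₀ A (p ^ e))) hM := by
  intro h hh
  have hh' : h ∈ PA k z B := hh
  unfold PA at hh'
  induction hh' using Algebra.adjoin_induction with
  | mem x hx =>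
    obtain ⟨β, rfl⟩ := hx
    obtain ⟨s, hs, rfl⟩ := hr
    refine ⟨1, ?_⟩
    rw [pow_one, mul_assoc]
    refine (RA k z l₀ A (p ^ e)).mul_mem hs ?_
    exact lemmaA p z l₀ A B hBA e he (RA k z l₀ A (p ^ e)).toSubring
      (fun β => coeff_mem_RA z l₀ A _ β) (fun i hi => pow_mem_RA z l₀ A _ hi) β
  | algebraMap u => exact ⟨0, by simp⟩
  | add x y hx' hy' hx hy => exact Submodule.add_mem _ (hx hx') (hy hy')
  | mul x y hx' hy' hx hy =>
    obtain ⟨m, hm⟩ := hx hx'
    obtain ⟨n, hn⟩ := hy hy'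
    refine ⟨m + n, ?_⟩
    have : r ^ (m + n) * (x * y) = (r ^ m * x) * (r ^ n * y) := by ring
    rw [this]
    exact (RA k z l₀ A (p ^ e)).mul_mem hm hn

/-- **R4** clearing denominators. -/
lemma clear_denoms (p : ℕ) [Fact p.Prime] [CharP T p] (z : L → I → T) (l₀ : L)
    (A B : Finset I) (hBA : B ⊆ A) (e : ℕ) (he : A.card < p ^ e) (c : ℕ) {Θ : Type*} [Fintype Θ]
    (w : Θ → ℕ)
    (hB : ∀ i ∈ B, ee k z i (p ^ c) * (PM k z B * bm k z B w) ≤ PM k z B * bm k z B w)
    (hB' : ∀ i ∈ A \ B, ee k z i (p ^ c) * (PM k z (A \ B) * bm k z (A \ B) w)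
      ≤ PM k z (A \ B) * bm k z (A \ B) w)
    (K : ℕ) (x : T) (hx : x ∈ bm k z A (Sum.elim w (fun _ : Fin K => p ^ c))) :
    ∃ m, (Del (z l₀) A B ^ (p ^ e * A.card)) ^ m * x ∈
      Subalgebra.toSubmodule (RA k z l₀ A (p ^ e)) * bm k z A w := by
  set R := RA k z l₀ A (p ^ e) with hR
  set RM := Subalgebra.toSubmodule R with hRM
  set r := Del (z l₀) A B ^ (p ^ e * A.card) with hr
  have hcl : ∀ i ∈ A, z l₀ i ∈ Subring.closure (z l₀ '' A) := fun i hi =>
    Subring.subset_closure ⟨i, hi, rfl⟩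
  have hrho : ∀ B ⊆ A, rho (z l₀) A B ^ (p ^ e * A.card) ∈ R := by
    intro B hB
    rw [pow_mul]
    exact R.pow_mem (pow_mem_RA_of_closure p z l₀ A e (rho_mem _ A B _ hcl hB)) _
  have hrR : r ∈ R := by
    rw [hr, Del, mul_pow]
    exact R.mul_mem (hrho B hBA) (hrho (A \ B) Finset.sdiff_subset)
  have hM : ∀ x ∈ RM, r * x ∈ RM := fun x hx => R.mul_mem hrR hx
  have h1 : PM k z B ≤ sat r RM hM := PM_le_sat p z l₀ A B hBA e he r
    ⟨rho (z l₀) A (A \ B) ^ (p ^ e * A.card), hrho _ Finset.sdiff_subset, by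
      rw [hr, Del, mul_pow, mul_comm]⟩ hM
  have h2 : PM k z (A \ B) ≤ sat r RM hM := PM_le_sat p z l₀ A (A \ B) Finset.sdiff_subset e he r
    ⟨rho (z l₀) A B ^ (p ^ e * A.card), hrho _ hBA, by rw [hr, Del, mul_pow]⟩ hM
  have h3 : PM k z B * PM k z (A \ B) ≤ sat r RM hM := by
    rw [Submodule.mul_le]
    intro a ha b hb
    obtain ⟨m, hm⟩ := h1 ha
    obtain ⟨n, hn⟩ := h2 hb
    refine ⟨m + n, ?_⟩
    have : r ^ (m + n) * (a * b) = (r ^ m * a) * (r ^ n * b) := by ring
    rw [this]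
    exact R.mul_mem hm hn
  have hM' : ∀ x ∈ RM * bm k z A w, r * x ∈ RM * bm k z A w := by
    intro x hx
    have : r * x ∈ RM * (RM * bm k z A w) := Submodule.mul_mem_mul hrR hx
    rwa [← mul_assoc, R.isIdempotentElem_toSubmodule.eq] at this
  have h4 : (PM k z B * PM k z (A \ B)) * bm k z A w ≤ sat r (RM * bm k z A w) hM' := by
    rw [Submodule.mul_le]
    intro a ha b hb
    obtain ⟨m, hm⟩ := h3 ha
    refine ⟨m, ?_⟩
    rw [← mul_assoc]
    exact Submodule.mul_mem_mul hm hb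
  -- R2
  have hR2 : bm k z A (Sum.elim w (fun _ : Fin K => p ^ c)) ≤
      (PM k z B * PM k z (A \ B)) * bm k z A w := by
    have hone : ∀ C : Finset I, (∀ i ∈ C, ee k z i (p ^ c) * (PM k z C * bm k z C w) ≤
        PM k z C * bm k z C w) → (∏ i ∈ C, ee k z i (p ^ c) ^ K) * bm k z C w ≤
        PM k z C * bm k z C w := by
      intro C hC
      calc (∏ i ∈ C, ee k z i (p ^ c) ^ K) * bm k z C w
          = (∏ i ∈ C, ee k z i (p ^ c) ^ K) * (1 * bm k z C w) := by rw [one_mul]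
        _ ≤ (∏ i ∈ C, ee k z i (p ^ c) ^ K) * (PM k z C * bm k z C w) :=
            mul_le_mul' le_rfl (mul_le_mul' (one_le_PM z C) le_rfl)
        _ ≤ _ := prod_mul_le _ _ fun i hi => pow_mul_le (hC i hi) K
    rw [bm_sum, bm_const]
    calc bm k z A w * ∏ i ∈ A, ee k z i (p ^ c) ^ K
        = ((∏ i ∈ B, ee k z i (p ^ c) ^ K) * bm k z B w) *
          ((∏ i ∈ A \ B, ee k z i (p ^ c) ^ K) * bm k z (A \ B) w) := by
          rw [bm_sdiff z A B hBA w, ← Finset.prod_sdiff hBA]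
          ring
      _ ≤ (PM k z B * bm k z B w) * (PM k z (A \ B) * bm k z (A \ B) w) :=
          mul_le_mul' (hone B hB) (hone (A \ B) hB')
      _ = (PM k z B * PM k z (A \ B)) * bm k z A w := by
          rw [bm_sdiff z A B hBA w]
          ring
  exact h4 (hR2 hx)

end R4

end Pool.Agent.H86.Polar
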