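import Mathlib
import Pool.Agent.H86.Polar.Step1

/-!
# Uniformity
-/

set_option linter.unusedSectionVars false

namespace Pool.Agent.H86.Polar

open MvPolynomial

section Transport

variable {T : Type*} [CommRing T] {L L' I : Type*} [Fintype L] [Fintype L']

/-- Relabelling letters. -/
lemma EE_comp_mem (z : L → I → T) (A : Finset I) (σ : L' → L) (R : Subring T)
    (hR : ∀ β, (EE z A).coeff β ∈ R) (β : Option L' →₀ ℕ) :
    (EE (fun l' i => z (σ l') i) A).coeff β ∈ R := by
  classical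
  revert β
  rw [← mem_coeffRing]
  have h := spec_mem z A (C : T →+* MvPolynomial (Option L') T) (coeffRing R (Option L'))
    (fun β => C_mem_coeffRing (hR β)) (X none) (X_mem_coeffRing _)
    (fun l => ∑ l' ∈ Finset.univ.filter (fun l' => σ l' = l), X (some l'))
    (fun l => sum_mem fun l' _ => X_mem_coeffRing _)
  convert h using 1
  unfold EE linForm
  refine Finset.prod_congr rfl fun i _ => ?_
  congr 1
  simp_rw [Finset.mul_sum]
  rw [Finset.sum_sigma']
  symm
  refine Finset.sum_bij' (fun x _ => x.2) (fun l' _ => ⟨σ l', l'⟩) ?_ ?_ ?_ ?_ ?_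
  · intro a _; exact Finset.mem_univ _
  · intro a _; simp
  · rintro ⟨a, b⟩ hab
    simp at hab
    subst hab
    rfl
  · intro a _; rfl
  · rintro ⟨a, b⟩ hab
    simp at hab
    subst hab
    rfl

variable {T₀ : Type*} [CommRing T₀]

lemma map_EE (φ : T₀ →+* T) (z : L → I → T₀) (A : Finset I) :
    MvPolynomial.map φ (EE z A) = EE (fun l i => φ (z l i)) A := by
  unfold EE linForm
  simp [map_prod]

lemma map_coeff_EE (φ : T₀ →+* T) (z : L → I → T₀) (A : Finset I) (β : Option L →₀ ℕ) :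
    φ ((EE z A).coeff β) = (EE (fun l i => φ (z l i)) A).coeff β := by
  rw [← map_EE, MvPolynomial.coeff_map]

end Transport

section TransportAlg

variable {k : Type*} {T T₀ : Type*} [CommRing k] [CommRing T] [Algebra k T] [CommRing T₀]
  [Algebra k T₀] {L L₀ I : Type*} [Fintype L] [Fintype L₀]

lemma map_RA_le (φ : T₀ →ₐ[k] T) (Z : L₀ → I → T₀) (z : L → I → T) (σ : L₀ → L)
    (h : ∀ l i, φ (Z l i) = z (σ l) i) (l₀ : L₀) (A : Finset I) (Q : ℕ) :
    Submodule.map φ.toLinearMap (Subalgebra.toSubmodule (RA k Z l₀ A Q)) ≤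
      Subalgebra.toSubmodule (RA k z (σ l₀) A Q) := by
  have h1 : (RA k Z l₀ A Q).map φ ≤ RA k z (σ l₀) A Q := by
    unfold RA
    rw [AlgHom.map_adjoin]
    refine Algebra.adjoin_le ?_
    rintro _ ⟨x, hx, rfl⟩
    rcases hx with ⟨β, rfl⟩ | ⟨i, hi, rfl⟩
    · have h2 : φ ((EE Z A).coeff β) = (EE (fun l i => z (σ l) i) A).coeff β := by
        have := map_coeff_EE (φ : T₀ →+* T) Z A β
        simp only [RingHom.coe_coe, h] at this
        exact this
      simp only [h2]
      exact EE_comp_mem z A σ (RA k z (σ l₀) A Q).toSubring (fun β => coeff_mem_RA z _ A Q β) β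
    · simp only [map_pow, h]
      exact pow_mem_RA z (σ l₀) A Q hi
  rintro _ ⟨x, hx, rfl⟩
  exact h1 ⟨x, hx, rfl⟩

lemma map_val (φ : T₀ →ₐ[k] T) (Z : L₀ → I → T₀) (z : L → I → T) (σ : L₀ → L)
    (h : ∀ l i, φ (Z l i) = z (σ l) i) (i : I) (w : ℕ) (o : Option L₀) :
    φ (val Z i w o) = val z i w (o.map σ) := by
  rcases o with _ | l
  · simp [val]
  · simp [val, h]

lemma map_bm_le (φ : T₀ →ₐ[k] T) (Z : L₀ → I → T₀) (z : L → I → T) (σ : L₀ → L)
    (h : ∀ l i, φ (Z l i) = z (σ l) i) (A : Finset I) {Θ : Type*} [Fintype Θ] (w : Θ → ℕ) :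
    Submodule.map φ.toLinearMap (bm k Z A w) ≤ bm k z A w := by
  rw [bm_eq_span, bm_eq_span, Submodule.map_span, Submodule.span_le]
  rintro _ ⟨_, ⟨s, rfl⟩, rfl⟩
  refine Submodule.subset_span ⟨fun i t => (s i t).map σ, ?_⟩
  simp only [AlgHom.toLinearMap_apply, map_prod, map_val φ Z z σ h]

lemma map_Del [DecidableEq I] (φ : T₀ →ₐ[k] T) (x : I → T₀) (A B : Finset I) :
    φ (Del x A B) = Del (fun i => φ (x i)) A B := by
  unfold Del rho
  simp [map_prod]

end TransportAlg

section R6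

universe u
variable {k : Type u} [CommRing k] {p : ℕ} [Fact p.Prime] [CharP k p] {I : Type} [Fintype I]
  [DecidableEq I]

lemma uniform_denoms (A B : Finset I) (hBA : B ⊆ A) (e : ℕ) (he : A.card < p ^ e) (c : ℕ)
    {Θ : Type} [Fintype Θ] (w : Θ → ℕ) (hB : Good k p B c w) (hB' : Good k p (A \ B) c w) (K : ℕ) :
    ∃ m₀ : ℕ, ∀ (L : Type) [Fintype L] (T : Type u) [CommRing T] [Algebra k T] [CharP T p]
      (z : L → I → T) (l₀ : L), ∀ x ∈ bm k z A (Sum.elim w (fun _ : Fin K => p ^ c)),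
      (Del (z l₀) A B ^ (p ^ e * A.card)) ^ m₀ * x ∈
        Subalgebra.toSubmodule (RA k z l₀ A (p ^ e)) * bm k z A w := by
  classical
  set W : Θ ⊕ Fin K → ℕ := Sum.elim w (fun _ : Fin K => p ^ c) with hW
  let L₀ : Type := Option (I × (Θ ⊕ Fin K))
  let Z : L₀ → I → MvPolynomial (L₀ × I) k := fun l i => X (l, i)
  let sb : (I → (Θ ⊕ Fin K) → Bool) → I → (Θ ⊕ Fin K) → Option L₀ :=
    fun b i t => if b i t then some (some (i, t)) else none
  have hex : ∀ b : I → (Θ ⊕ Fin K) → Bool, ∃ m,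
      (Del (Z none) A B ^ (p ^ e * A.card)) ^ m * (∏ i ∈ A, ∏ t, val Z i (W t) (sb b i t)) ∈
      Subalgebra.toSubmodule (RA k Z none A (p ^ e)) * bm k Z A w := by
    intro b
    refine clear_denoms p Z none A B hBA e he c w (hB L₀ _ Z) (hB' L₀ _ Z) K _ ?_
    rw [bm_eq_span]
    exact Submodule.subset_span ⟨sb b, rfl⟩
  choose m hm using hex
  refine ⟨Finset.univ.sup m, ?_⟩
  intro L _ T _ _ _ z l₀ x hx
  set r := Del (z l₀) A B ^ (p ^ e * A.card) with hr
  have hrR : r ∈ RA k z l₀ A (p ^ e) := by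
    rw [hr, pow_mul]
    refine (RA k z l₀ A (p ^ e)).pow_mem ?_ _
    refine pow_mem_RA_of_closure p z l₀ A e ?_
    exact Del_mem _ A B hBA _ fun i hi => Subring.subset_closure ⟨i, hi, rfl⟩
  have hpow : ∀ j, ∀ y ∈ Subalgebra.toSubmodule (RA k z l₀ A (p ^ e)) * bm k z A w,
      r ^ j * y ∈ Subalgebra.toSubmodule (RA k z l₀ A (p ^ e)) * bm k z A w := by
    intro j y hy
    have : r ^ j * y ∈ Subalgebra.toSubmodule (RA k z l₀ A (p ^ e)) *
        (Subalgebra.toSubmodule (RA k z l₀ A (p ^ e)) * bm k z A w) :=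
      Submodule.mul_mem_mul ((RA k z l₀ A (p ^ e)).pow_mem hrR j) hy
    rwa [← mul_assoc, (RA k z l₀ A (p ^ e)).isIdempotentElem_toSubmodule.eq] at this
  rw [bm_eq_span] at hx
  induction hx using Submodule.span_induction with
  | zero => simp
  | add y y' _ _ h h' => rw [mul_add]; exact Submodule.add_mem _ h h'
  | smul a y _ h => rw [mul_smul_comm]; exact Submodule.smul_mem _ _ h
  | mem y hy =>
    obtain ⟨s, rfl⟩ := hy
    let b : I → (Θ ⊕ Fin K) → Bool := fun i t => (s i t).isSome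
    let σ : L₀ → L := fun o => o.elim l₀ fun it => (s it.1 it.2).getD l₀
    let φ : MvPolynomial (L₀ × I) k →ₐ[k] T := aeval fun li => z (σ li.1) li.2
    have hφ : ∀ l i, φ (Z l i) = z (σ l) i := by
      intro l i
      simp [φ, Z]
    have h1 := hm b
    have h2 : φ ((Del (Z none) A B ^ (p ^ e * A.card)) ^ m b *
        (∏ i ∈ A, ∏ t, val Z i (W t) (sb b i t))) ∈
        Subalgebra.toSubmodule (RA k z l₀ A (p ^ e)) * bm k z A w := by
      have h3 := Submodule.mem_map_of_mem (f := φ.toLinearMap) h1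
      rw [Submodule.map_mul] at h3
      have h4 := mul_le_mul' (map_RA_le φ Z z σ hφ none A (p ^ e)) (map_bm_le φ Z z σ hφ A w) h3
      exact h4
    rw [map_mul, map_pow, map_pow, map_Del, map_prod] at h2
    have h5 : (fun i => φ (Z none i)) = z l₀ := by
      funext i
      rw [hφ]
      rfl
    have h6 : ∀ i ∈ A, φ (∏ t, val Z i (W t) (sb b i t)) = ∏ t, val z i (W t) (s i t) := by
      intro i _
      rw [map_prod]
      refine Finset.prod_congr rfl fun t _ => ?_
      rw [map_val φ Z z σ hφ]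
      congr 1
      simp only [sb, b, σ]
      rcases Option.eq_none_or_eq_some (s i t) with hs | ⟨l, hs⟩
      · simp [hs]
      · simp [hs]
    rw [h5, Finset.prod_congr rfl h6, ← hr] at h2
    have h7 : m b ≤ Finset.univ.sup m := Finset.le_sup (Finset.mem_univ b)
    have h8 := hpow (Finset.univ.sup m - m b) _ h2
    rw [← mul_assoc, ← pow_add, Nat.sub_add_cancel h7] at h8
    exact h8

end R6

end Pool.Agent.H86.Polar
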