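import Mathlib
import Pool.Agent.H86.Polar.Step2

/-!
# Step B and Step C: the induction
-/

set_option linter.unusedSectionVars false

namespace Pool.Agent.H86.Polar

open MvPolynomial

section Basic

lemma coeff_one_add_aux {R : Type*} [CommRing R] (η : R) (n : ℕ) :
    ((1 + Polynomial.C η * Polynomial.X : Polynomial R) ^ n).coeff 0 = 1
      ∧ ((1 + Polynomial.C η * Polynomial.X : Polynomial R) ^ n).coeff 1 = n * η := by
  induction n with
  | zero => simp [Polynomial.coeff_one]
  | succ n ih =>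
    have h0 : (1 + Polynomial.C η * Polynomial.X : Polynomial R).coeff 0 = 1 := by simp
    have h1 : (1 + Polynomial.C η * Polynomial.X : Polynomial R).coeff 1 = η := by
      simp [Polynomial.coeff_one]
    rw [pow_succ, Polynomial.mul_coeff_zero, Polynomial.mul_coeff_one, ih.1, ih.2, h0, h1]
    constructor
    · simp
    · push_cast
      ring

/-- `(1 + ξ X)^{p^a N'}` has coefficient `N' ξ^{p^a}` at `X^{p^a}`. -/
lemma coeff_one_add_pow {R : Type*} [CommRing R] (p : ℕ) [Fact p.Prime] [CharP R p] (ξ : R)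
    (a N' : ℕ) :
    ((1 + Polynomial.C ξ * Polynomial.X : Polynomial R) ^ (p ^ a * N')).coeff (p ^ a) =
      N' * ξ ^ p ^ a := by
  have h1 : (1 + Polynomial.C ξ * Polynomial.X : Polynomial R) ^ (p ^ a * N') =
      Polynomial.expand R (p ^ a)
        ((1 + Polynomial.C (ξ ^ p ^ a) * Polynomial.X) ^ N') := by
    rw [pow_mul, add_pow_char_pow, mul_pow, one_pow, map_pow, map_add, map_mul,
      map_one, Polynomial.expand_C, Polynomial.expand_X, Polynomial.C_pow]
  rw [h1]
  have h2 := Polynomial.coeff_expand_mul (R := R) (p := p ^ a)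
    (pow_pos (Fact.out : p.Prime).pos a)
    ((1 + Polynomial.C (ξ ^ p ^ a) * Polynomial.X) ^ N') 1
  rw [one_mul] at h2
  rw [h2]
  exact (coeff_one_add_aux _ _).2

lemma pow_mem_of_adjoin {k T : Type*} [CommRing k] [CommRing T] [Algebra k T] (p : ℕ)
    [Fact p.Prime] [CharP T p] (e : ℕ) (s : Set T) (R : Subalgebra k T)
    (hs : ∀ x ∈ s, x ^ p ^ e ∈ R) {v : T} (hv : v ∈ Algebra.adjoin k s) : v ^ p ^ e ∈ R := by
  induction hv using Algebra.adjoin_induction with
  | mem x hx => exact hs x hx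
  | algebraMap r => rw [← map_pow]; exact R.algebraMap_mem _
  | add x y _ _ hx hy => rw [add_pow_char_pow]; exact R.add_mem hx hy
  | mul x y _ _ hx hy => rw [mul_pow]; exact R.mul_mem hx hy

end Basic

section StepB

variable {k : Type*} [Field k] {p : ℕ} [Fact p.Prime] [CharP k p] {I : Type} [Fintype I]
  [DecidableEq I]

/-- The polynomial `h`. -/
noncomputable def hpoly (k : Type*) [Field k] {I : Type} (A : Finset I) (M N' : ℕ) :
    MvPolynomial I k :=
  C ((N' : k)⁻¹) * (∏ j ∈ A, (1 + Polynomial.C (X j : MvPolynomial I k) * Polynomial.X)).coeff M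

lemma stepB (A : Finset I) (a N' : ℕ) (hN : A.card = p ^ a * N') (hN' : (N' : k) ≠ 0) {i : I}
    (hi : i ∈ A) :
    (X i : MvPolynomial I k) ^ p ^ a - hpoly k A (p ^ a) N' ∈
      (Ideal.span ((fun B => Del (X : I → MvPolynomial I k) A B) ''
        {B | B ∈ A.ssubsets ∧ B.Nonempty})).radical := by
  classical
  rw [Ideal.radical_eq_sInf, Ideal.mem_sInf]
  rintro P ⟨hJP, hP⟩
  have hall : ∀ j ∈ A, (X j : MvPolynomial I k) - X i ∈ P := by
    by_contra hcon
    push Not at hcon
    obtain ⟨j₀, hj₀, hj₀'⟩ := hcon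
    set B := A.filter fun j => (X j : MvPolynomial I k) - X i ∈ P with hB
    have hBA : B ⊆ A := Finset.filter_subset _ _
    have hiB : i ∈ B := by simp [hB, hi]
    have hj₀B : j₀ ∉ B := by simp [hB, hj₀']
    have hss : B ∈ A.ssubsets := by
      rw [Finset.mem_ssubsets]
      exact ⟨hBA, fun h => hj₀B (h hj₀)⟩
    have hmem : Del (X : I → MvPolynomial I k) A B ∈ P :=
      hJP (Ideal.subset_span ⟨B, ⟨hss, ⟨i, hiB⟩⟩, rfl⟩)
    have hkey : ∀ b ∈ B, ∀ c ∈ A \ B, (X b : MvPolynomial I k) - X c ∉ P := by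
      intro b hb c hc hbc
      have h1 : (X b : MvPolynomial I k) - X i ∈ P := (Finset.mem_filter.mp hb).2
      have h2 : (X c : MvPolynomial I k) - X i ∈ P := by
        have : (X c : MvPolynomial I k) - X i = (X b - X i) - (X b - X c) := by ring
        rw [this]
        exact P.sub_mem h1 hbc
      exact (Finset.mem_sdiff.mp hc).2 (Finset.mem_filter.mpr ⟨(Finset.mem_sdiff.mp hc).1, h2⟩)
    unfold Del rho at hmem
    rcases hP.mem_or_mem hmem with h | h
    · obtain ⟨b, hb, h⟩ := (hP.prod_mem_iff).mp h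
      obtain ⟨c, hc, h⟩ := (hP.prod_mem_iff).mp h
      exact hkey b hb c hc h
    · obtain ⟨b, hb, h⟩ := (hP.prod_mem_iff).mp h
      obtain ⟨c, hc, h⟩ := (hP.prod_mem_iff).mp h
      rw [Finset.sdiff_sdiff_eq_self hBA] at hc
      refine hkey c hc b hb ?_
      rw [← neg_sub]
      exact P.neg_mem h
  -- compute in the quotient
  have : CharP (MvPolynomial I k ⧸ P) p := by
    have : Nontrivial (MvPolynomial I k ⧸ P) := Ideal.Quotient.nontrivial_iff.mpr hP.ne_top
    exact charP_of_injective_algebraMap (algebraMap k (MvPolynomial I k ⧸ P)).injective p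
  rw [← Ideal.Quotient.eq, map_pow]
  unfold hpoly
  rw [map_mul, ← Polynomial.coeff_map]
  rw [Polynomial.map_prod]
  have h3 : ∀ j ∈ A, (1 + Polynomial.C (X j : MvPolynomial I k) * Polynomial.X).map
      (Ideal.Quotient.mk P) = 1 + Polynomial.C (Ideal.Quotient.mk P (X i)) * Polynomial.X := by
    intro j hj
    have := (Ideal.Quotient.eq (I := P)).mpr (hall j hj)
    simp [this]
  rw [Finset.prod_congr rfl h3, Finset.prod_const, hN, coeff_one_add_pow, ← mul_assoc]
  have h4 : (Ideal.Quotient.mk P) (C ((N' : k)⁻¹)) * (N' : MvPolynomial I k ⧸ P) = 1 := by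
    have : (N' : MvPolynomial I k ⧸ P) = Ideal.Quotient.mk P (C (N' : k)) := by simp
    rw [this, ← map_mul, ← C_mul, inv_mul_cancel₀ hN']
    simp
  rw [h4, one_mul]

lemma stepB_all (p : ℕ) [Fact p.Prime] [CharP k p] (A : Finset I) (a N' : ℕ)
    (hN : A.card = p ^ a * N') (hN' : (N' : k) ≠ 0) :
    ∃ b : ℕ, ∀ i ∈ A, ∃ t : Finset I → MvPolynomial I k,
      (X i : MvPolynomial I k) ^ p ^ (a + b) = hpoly k A (p ^ a) N' ^ p ^ b +
        ∑ B ∈ A.ssubsets.filter Finset.Nonempty, t B * Del (X : I → MvPolynomial I k) A B := by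
  classical
  have h1 : ∀ i, ∃ n, i ∈ A → ((X i : MvPolynomial I k) ^ p ^ a - hpoly k A (p ^ a) N') ^ n ∈
      (Ideal.span ((fun B => Del (X : I → MvPolynomial I k) A B) ''
        {B | B ∈ A.ssubsets ∧ B.Nonempty})) := by
    intro i
    by_cases hi : i ∈ A
    · obtain ⟨n, hn⟩ := stepB (k := k) A a N' hN hN' hi
      exact ⟨n, fun _ => hn⟩
    · exact ⟨0, fun h => absurd h hi⟩
  choose n hn using h1
  obtain ⟨b, hb⟩ : ∃ b, Finset.univ.sup n ≤ p ^ b :=
    ⟨Finset.univ.sup n, (Nat.lt_pow_self (Fact.out : p.Prime).one_lt).le⟩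
  refine ⟨b, fun i hi => ?_⟩
  have h2 : ((X i : MvPolynomial I k) ^ p ^ a - hpoly k A (p ^ a) N') ^ p ^ b ∈
      (Ideal.span ((fun B => Del (X : I → MvPolynomial I k) A B) ''
        {B | B ∈ A.ssubsets ∧ B.Nonempty})) :=
    Ideal.pow_mem_of_pow_mem _ (hn i hi) ((Finset.le_sup (Finset.mem_univ i)).trans hb)
  have h3 : {B | B ∈ A.ssubsets ∧ B.Nonempty} =
      ((A.ssubsets.filter Finset.Nonempty : Finset (Finset I)) : Set (Finset I)) := by
    ext B
    simp
  rw [h3, sub_pow_char_pow, ← pow_mul, ← pow_add] at h2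
  obtain ⟨t, ht⟩ := (Submodule.mem_span_image_finset_iff_exists_fun' _).mp h2
  refine ⟨t, ?_⟩
  simp only [smul_eq_mul] at ht
  rw [ht]
  ring

end StepB

end Pool.Agent.H86.Polar
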