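import Mathlib
import Pool.Agent.H86.Polar.Step3

/-!
# Step C and the induction
-/

set_option linter.unusedSectionVars false

namespace Pool.Agent.H86.Polar

open MvPolynomial

section StepC

universe u
variable {k : Type u} [Field k] {p : ℕ} [Fact p.Prime] [CharP k p] {I : Type} [Fintype I]
  [DecidableEq I]

/-- the value of `hpoly` at the pivot row is in `PA`. -/
lemma hpoly_mem {T : Type u} [CommRing T] [Algebra k T] {L : Type} [Fintype L] (z : L → I → T)
    (l₀ : L) (A : Finset I) (M N' : ℕ) :
    aeval (fun j => if j ∈ A then z l₀ j else 0) (hpoly k A M N') ∈ PA k z A := by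
  classical
  unfold hpoly
  rw [map_mul]
  refine (PA k z A).mul_mem ?_ ?_
  · rw [← algebraMap_eq, AlgHom.commutes]
    exact (PA k z A).algebraMap_mem _
  · have h := spec_mem z A (Polynomial.C : T →+* Polynomial T) (polyRing (PA k z A).toSubring)
      (fun β => polyC_mem_polyRing (coeff_mem_PA (k := k) z A β)) 1 (polyRing _).one_mem
      (fun l => if l = l₀ then Polynomial.X else 0) (by
        intro l
        split_ifs
        · exact polyX_mem_polyRing
        · exact (polyRing _).zero_mem)
    rw [mem_polyRing] at h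
    have h1 := h M
    have h2 : (aeval fun j => if j ∈ A then z l₀ j else 0)
        ((∏ j ∈ A, (1 + Polynomial.C (X j : MvPolynomial I k) * Polynomial.X)).coeff M) =
        (∏ i ∈ A, (1 + ∑ l, Polynomial.C (z l i) *
          (if l = l₀ then Polynomial.X else 0))).coeff M := by
      have h3 := Polynomial.coeff_map (p := ∏ j ∈ A,
        (1 + Polynomial.C (X j : MvPolynomial I k) * Polynomial.X))
        ((aeval fun j => if j ∈ A then z l₀ j else 0 : MvPolynomial I k →ₐ[k] T) :
          MvPolynomial I k →+* T) M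
      rw [RingHom.coe_coe] at h3
      rw [← h3, Polynomial.map_prod]
      congr 1
      refine Finset.prod_congr rfl fun i hi => ?_
      simp [hi]
    rw [h2]
    exact h1

lemma aeval_mem_adjoin {T : Type u} [CommRing T] [Algebra k T] {L : Type} (z : L → I → T)
    (l₀ : L) (A : Finset I) (t : MvPolynomial I k) :
    aeval (fun j => if j ∈ A then z l₀ j else 0) t ∈ Algebra.adjoin k (z l₀ '' A) := by
  induction t using MvPolynomial.induction_on with
  | C a => simp [← algebraMap_eq]
  | add x y hx hy => rw [map_add]; exact Subalgebra.add_mem _ hx hy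
  | mul_X x i hx =>
    rw [map_mul, aeval_X]
    refine Subalgebra.mul_mem _ hx ?_
    split_ifs with h
    · exact Algebra.subset_adjoin ⟨i, h, rfl⟩
    · exact Subalgebra.zero_mem _

lemma good_step (A : Finset I) (hA : A.Nonempty) (c : ℕ) {Θ : Type} [Fintype Θ] (w : Θ → ℕ)
    (h : ∀ B, B ⊂ A → Good k p B c w) :
    ∃ c', Good k p A c' (Sum.elim w (fun _ : Fin (A.card - 1) => p ^ c)) := by
  classical
  have hp : p.Prime := Fact.out
  obtain ⟨a, N', hN', hN⟩ := Nat.exists_eq_pow_mul_and_not_dvd (Finset.card_pos.mpr hA).ne' p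
    hp.ne_one
  have hN'k : (N' : k) ≠ 0 := by
    intro h0
    exact hN' ((CharP.cast_eq_zero_iff k p N').mp h0)
  obtain ⟨b, hb⟩ := stepB_all (k := k) p A a N' hN hN'k
  -- choose e
  obtain ⟨e, hce, he⟩ : ∃ e, c ≤ e ∧ A.card < p ^ e := by
    refine ⟨c + A.card, Nat.le_add_right _ _, ?_⟩
    calc A.card < p ^ A.card := Nat.lt_pow_self hp.one_lt
      _ ≤ p ^ (c + A.card) := Nat.pow_le_pow_right hp.pos (Nat.le_add_left _ _)
  -- uniform m
  have hm : ∀ B : Finset I, ∃ m₀ : ℕ, B ∈ A.ssubsets.filter Finset.Nonempty →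
      ∀ (L : Type) [Fintype L] (T : Type u) [CommRing T] [Algebra k T] [CharP T p]
      (z : L → I → T) (l₀ : L),
      ∀ x ∈ bm k z A (Sum.elim w (fun _ : Fin (A.card - 1) => p ^ c)),
      (Del (z l₀) A B ^ (p ^ e * A.card)) ^ m₀ * x ∈
        Subalgebra.toSubmodule (RA k z l₀ A (p ^ e)) * bm k z A w := by
    intro B
    by_cases hB : B ∈ A.ssubsets.filter Finset.Nonempty
    · rw [Finset.mem_filter, Finset.mem_ssubsets] at hB
      have hBA := hB.1
      have hBA' : A \ B ⊂ A := Finset.sdiff_ssubset hBA.1 hB.2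
      obtain ⟨m₀, hm₀⟩ := uniform_denoms (k := k) (p := p) A B hBA.1 e he c w (h B hBA)
        (h _ hBA') (A.card - 1)
      exact ⟨m₀, fun _ => hm₀⟩
    · exact ⟨0, fun h => absurd h hB⟩
  choose m hm using hm
  obtain ⟨f, hf⟩ : ∃ f, ∀ B, A.card * m B ≤ p ^ f := by
    refine ⟨Finset.univ.sup fun B => A.card * m B, fun B => ?_⟩
    exact (Finset.le_sup (f := fun B => A.card * m B) (Finset.mem_univ B)).trans
      (Nat.lt_pow_self hp.one_lt).le
  refine ⟨a + b + (e + f), ?_⟩
  intro L _ T _ _ _ z i hi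
  set w' := Sum.elim w (fun _ : Fin (A.card - 1) => p ^ c) with hw'
  set M := PM k z A * bm k z A w' with hM
  -- the inclusion R5
  have hR5 : ∀ l₀ : L, Subalgebra.toSubmodule (RA k z l₀ A (p ^ e)) * bm k z A w ≤ M := by
    intro l₀
    calc Subalgebra.toSubmodule (RA k z l₀ A (p ^ e)) * bm k z A w
        ≤ (PM k z A * bm k z A (fun _ : Fin (A.card - 1) => p ^ c)) * bm k z A w :=
          mul_le_mul' (RA_le p z l₀ A hce) le_rfl
      _ = M := by
          rw [hM, hw', bm_sum]
          ring
  -- key claim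
  have key : ∀ l₀ : L, ∀ x ∈ bm k z A w', z l₀ i ^ p ^ (a + b + (e + f)) * x ∈ M := by
    intro l₀ x hx
    obtain ⟨t, ht⟩ := hb i hi
    let ψ : MvPolynomial I k →ₐ[k] T := aeval (fun j => if j ∈ A then z l₀ j else 0)
    have hψX : ∀ j ∈ A, ψ (X j) = z l₀ j := by
      intro j hj
      simp [ψ, hj]
    have hψD : ∀ B ⊆ A, ψ (Del (X : I → MvPolynomial I k) A B) = Del (z l₀) A B := by
      intro B hB
      rw [map_Del]
      unfold Del rho
      have hr : ∀ B ⊆ A, ∏ i ∈ B, ∏ j ∈ A \ B, (ψ (X i) - ψ (X j)) =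
          ∏ i ∈ B, ∏ j ∈ A \ B, (z l₀ i - z l₀ j) := by
        intro B hB
        refine Finset.prod_congr rfl fun i hi => Finset.prod_congr rfl fun j hj => ?_
        rw [hψX i (hB hi), hψX j (Finset.mem_sdiff.mp hj).1]
      rw [hr B hB, hr (A \ B) Finset.sdiff_subset]
    have h1 := congrArg ψ ht
    rw [map_pow, hψX i hi, map_add, map_pow, map_sum] at h1
    have h2 : z l₀ i ^ p ^ (a + b + (e + f)) =
        ψ (hpoly k A (p ^ a) N') ^ p ^ (b + (e + f)) +
        ∑ B ∈ A.ssubsets.filter Finset.Nonempty,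
          ψ (t B) ^ p ^ (e + f) * Del (z l₀) A B ^ p ^ (e + f) := by
      rw [pow_add p (a + b), pow_mul, h1, add_pow_char_pow, ← pow_mul, ← pow_add,
        sum_pow_char_pow]
      congr 1
      refine Finset.sum_congr rfl fun B hB => ?_
      rw [Finset.mem_filter, Finset.mem_ssubsets] at hB
      rw [map_mul, mul_pow, hψD B hB.1.1]
    rw [h2, add_mul]
    refine M.add_mem ?_ ?_
    · refine Submodule.mul_mem_mul ?_ hx
      exact (PA k z A).pow_mem (hpoly_mem z l₀ A _ _) _
    · rw [Finset.sum_mul]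
      refine M.sum_mem fun B hB => hR5 l₀ ?_
      have h3 := hm B hB L T z l₀ x hx
      have hB' := hB
      rw [Finset.mem_filter, Finset.mem_ssubsets] at hB'
      set Δ := Del (z l₀) A B with hΔ
      have h4 : ψ (t B) ^ p ^ (e + f) * Δ ^ p ^ (e + f) * x =
          ((ψ (t B) ^ p ^ f * Δ ^ (p ^ f - A.card * m B)) ^ p ^ e) *
          ((Δ ^ (p ^ e * A.card)) ^ m B * x) := by
        have h5 : p ^ (e + f) = (p ^ f - A.card * m B) * p ^ e + p ^ e * A.card * m B := by
          rw [mul_comm, mul_assoc, ← mul_add, Nat.sub_add_cancel (hf B), pow_add]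
        calc ψ (t B) ^ p ^ (e + f) * Δ ^ p ^ (e + f) * x
            = ψ (t B) ^ p ^ (e + f) *
              Δ ^ ((p ^ f - A.card * m B) * p ^ e + p ^ e * A.card * m B) * x := by rw [← h5]
          _ = _ := by
            rw [mul_pow, ← pow_mul, ← pow_mul, ← pow_mul, pow_add Δ, ← pow_add p f e, add_comm f e]
            ring
      rw [h4]
      have hRA : (ψ (t B) ^ p ^ f * Δ ^ (p ^ f - A.card * m B)) ^ p ^ e ∈
          RA k z l₀ A (p ^ e) := by
        refine pow_mem_of_adjoin p e (z l₀ '' A) _ ?_ ?_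
        · rintro _ ⟨j, hj, rfl⟩
          exact pow_mem_RA z l₀ A _ hj
        · refine Subalgebra.mul_mem _ (Subalgebra.pow_mem _ (aeval_mem_adjoin z l₀ A _) _)
            (Subalgebra.pow_mem _ ?_ _)
          rw [hΔ, ← hψD B hB'.1.1]
          exact aeval_mem_adjoin z l₀ A _
      have h6 := Submodule.mul_mem_mul (M := Subalgebra.toSubmodule (RA k z l₀ A (p ^ e)))
        hRA h3
      rwa [← mul_assoc, (RA k z l₀ A (p ^ e)).isIdempotentElem_toSubmodule.eq] at h6
  -- conclude
  have hle : ee k z i (p ^ (a + b + (e + f))) * bm k z A w' ≤ M := by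
    rw [Submodule.mul_le]
    intro y hy x hx
    unfold ee at hy
    induction hy using Submodule.span_induction with
    | zero => simp
    | add y y' _ _ h h' => rw [add_mul]; exact Submodule.add_mem _ h h'
    | smul a y _ h => rw [smul_mul_assoc]; exact Submodule.smul_mem _ _ h
    | mem y hy =>
      obtain ⟨o, rfl⟩ := hy
      rcases o with _ | l
      · have : (1 : T) * x ∈ M := Submodule.mul_mem_mul (PA k z A).one_mem hx
        exact this
      · exact key l x hx
  calc ee k z i (p ^ (a + b + (e + f))) * M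
      = PM k z A * (ee k z i (p ^ (a + b + (e + f))) * bm k z A w') := by
        rw [hM]
        ring
    _ ≤ PM k z A * M := mul_le_mul' le_rfl hle
    _ = M := by rw [hM, ← mul_assoc, PM_mul_PM]

/-- **The semiseparation theorem**: uniform boundedness. -/
theorem good_all (k : Type u) [Field k] (p : ℕ) [Fact p.Prime] [CharP k p] (I : Type) [Fintype I]
    [DecidableEq I] (N : ℕ) : ∃ (c : ℕ) (Θ : Type) (_ : Fintype Θ) (w : Θ → ℕ),
    ∀ A : Finset I, A.card ≤ N → Good k p A c w := by
  classical
  induction N with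
  | zero =>
    refine ⟨0, Empty, inferInstance, fun _ => 0, ?_⟩
    intro A hA L _ T _ _ _ z i hi
    have : A = ∅ := Finset.card_eq_zero.mp (Nat.le_zero.mp hA)
    rw [this] at hi
    exact absurd hi (Finset.notMem_empty i)
  | succ N ih =>
    obtain ⟨c, Θ, _, w, hw⟩ := ih
    have h1 : ∀ A : Finset I, ∃ c', A.card = N + 1 →
        Good k p A c' (Sum.elim w (fun _ : Fin N => p ^ c)) := by
      intro A
      by_cases hA : A.card = N + 1
      · have hA' : A.Nonempty := Finset.card_pos.mp (by omega)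
        obtain ⟨c', hc'⟩ := good_step (k := k) (p := p) A hA' c w (by
          intro B hB
          have := Finset.card_lt_card hB
          exact hw B (by omega))
        refine ⟨c', fun _ => ?_⟩
        have h2 : A.card - 1 = N := by omega
        rw [h2] at hc'
        exact hc'
      · exact ⟨0, fun h => absurd h hA⟩
    choose c' hc' using h1
    refine ⟨max c (Finset.univ.sup c'), Θ ⊕ Fin N, inferInstance,
      Sum.elim w (fun _ : Fin N => p ^ c), ?_⟩
    intro A hA
    rcases Nat.lt_or_ge A.card (N + 1) with h | h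
    · exact ((hw A (by omega)).sum _).mono (le_max_left _ _)
    · exact (hc' A (by omega)).mono
        ((Finset.le_sup (f := c') (Finset.mem_univ A)).trans (le_max_right _ _))

end StepC

end Pool.Agent.H86.Polar
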