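import Mathlib
import Pool.Agent.H86.Polar.Defs
import Pool.Agent.H86.Polar.Step4
import Pool.Agent.H86.Polar.GR2

/-!
# Basic facts on invariants and polarizations
-/

set_option linter.unusedSectionVars false

namespace Pool.Agent.H86.Polar

open MvPolynomial

universe u v

variable {k : Type u} [Field k] {G : Type v} [Group G] {m : ℕ}
  (ρ : G →* Matrix.GeneralLinearGroup (Fin m) k)

lemma translate_X (g : G) (r : Fin m) :
    translate ρ g (X r) = ∑ r', C ((ρ g : Matrix (Fin m) (Fin m) k) r r') * X r' := by
  simp [translate]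

lemma translateD_X {Λ : Type} (g : G) (l : Λ) (r : Fin m) :
    translateD ρ Λ g (X (l, r)) =
      ∑ r', C ((ρ g : Matrix (Fin m) (Fin m) k) r r') * X (l, r') := by
  simp [translateD]

lemma translate_C (g : G) (a : k) : translate ρ g (C a) = C a := by
  rw [← algebraMap_eq, AlgHom.commutes]

lemma translateD_C {Λ : Type} (g : G) (a : k) : translateD ρ Λ g (C a) = C a := by
  rw [← algebraMap_eq, AlgHom.commutes]

lemma translate_mul (g h : G) (f : MvPolynomial (Fin m) k) :
    translate ρ h (translate ρ g f) = translate ρ (g * h) f := by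
  have : (translate ρ h).comp (translate ρ g) = translate ρ (g * h) := by
    apply MvPolynomial.algHom_ext
    intro r
    rw [AlgHom.comp_apply, translate_X, translate_X, map_sum]
    simp_rw [map_mul, translate_C, translate_X, Finset.mul_sum]
    rw [Finset.sum_comm]
    refine Finset.sum_congr rfl fun r'' _ => ?_
    rw [Units.val_mul, Matrix.mul_apply, map_sum, Finset.sum_mul]
    refine Finset.sum_congr rfl fun r' _ => ?_
    rw [map_mul, mul_assoc]
  rw [← this, AlgHom.comp_apply]

lemma translateD_mul {Λ : Type} (g h : G) (f : MvPolynomial (Λ × Fin m) k) :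
    translateD ρ Λ h (translateD ρ Λ g f) = translateD ρ Λ (g * h) f := by
  have : (translateD ρ Λ h).comp (translateD ρ Λ g) = translateD ρ Λ (g * h) := by
    apply MvPolynomial.algHom_ext
    rintro ⟨l, r⟩
    rw [AlgHom.comp_apply, translateD_X, translateD_X, map_sum]
    simp_rw [map_mul, translateD_C, translateD_X, Finset.mul_sum]
    rw [Finset.sum_comm]
    refine Finset.sum_congr rfl fun r'' _ => ?_
    rw [Units.val_mul, Matrix.mul_apply, map_sum, Finset.sum_mul]
    refine Finset.sum_congr rfl fun r' _ => ?_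
    rw [map_mul, mul_assoc]
  rw [← this, AlgHom.comp_apply]

lemma translateD_one {Λ : Type} (f : MvPolynomial (Λ × Fin m) k) :
    translateD ρ Λ 1 f = f := by
  have : translateD ρ Λ 1 = AlgHom.id k _ := by
    apply MvPolynomial.algHom_ext
    rintro ⟨l, r⟩
    rw [translateD_X, AlgHom.id_apply]
    simp [Matrix.one_apply]
  rw [this, AlgHom.id_apply]

/-- The algebra generated by the polarizations of all invariants. -/
noncomputable abbrev PP (Λ : Type) [Fintype Λ] : Subalgebra k (MvPolynomial (Λ × Fin m) k) :=
  polAlg (inv ρ : Set (MvPolynomial (Fin m) k)) Λ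

lemma polar_coeff_mem {Λ : Type} [Fintype Λ] {f : MvPolynomial (Fin m) k} (hf : f ∈ inv ρ)
    (β : Λ →₀ ℕ) : (polar k m Λ f).coeff β ∈ PP ρ Λ :=
  Algebra.subset_adjoin ⟨f, hf, β, rfl⟩

lemma polAlg_eq {Λ : Type} [Fintype Λ] (S : Set (MvPolynomial (Fin m) k))
    (hS : Algebra.adjoin k S = inv ρ) : polAlg S Λ = PP ρ Λ := by
  apply le_antisymm
  · refine Algebra.adjoin_le ?_
    rintro _ ⟨f, hf, β, rfl⟩
    refine polar_coeff_mem ρ ?_ β
    rw [← hS]
    exact Algebra.subset_adjoin hf
  · refine Algebra.adjoin_le ?_
    rintro _ ⟨f, hf, β, rfl⟩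
    have hf' : f ∈ Algebra.adjoin k S := by rw [hS]; exact hf
    have h1 : polar k m Λ f ∈ coeffRing (polAlg S Λ).toSubring Λ := by
      induction hf' using Algebra.adjoin_induction with
      | mem x hx =>
        rw [mem_coeffRing]
        intro β
        exact Algebra.subset_adjoin ⟨x, hx, β, rfl⟩
      | algebraMap r =>
        rw [AlgHom.commutes]
        have : algebraMap k (MvPolynomial Λ (MvPolynomial (Λ × Fin m) k)) r =
            C (algebraMap k (MvPolynomial (Λ × Fin m) k) r) := rfl
        rw [this]
        exact C_mem_coeffRing ((polAlg S Λ).algebraMap_mem r)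
      | add x y hx' hy' hx hy =>
        rw [map_add]
        exact Subring.add_mem _ (hx (by rw [← hS]; exact hx')) (hy (by rw [← hS]; exact hy'))
      | mul x y hx' hy' hx hy =>
        rw [map_mul]
        exact Subring.mul_mem _ (hx (by rw [← hS]; exact hx')) (hy (by rw [← hS]; exact hy'))
    exact (mem_coeffRing.mp h1) β

/-- polarizations commute with translations. -/
lemma map_polar {Λ : Type} [Fintype Λ] (g : G) (f : MvPolynomial (Fin m) k) :
    MvPolynomial.map (translateD ρ Λ g : MvPolynomial (Λ × Fin m) k →+* _) (polar k m Λ f) =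
      polar k m Λ (translate ρ g f) := by
  induction f using MvPolynomial.induction_on with
  | C a =>
    rw [translate_C, ← algebraMap_eq, AlgHom.commutes]
    have : algebraMap k (MvPolynomial Λ (MvPolynomial (Λ × Fin m) k)) a =
        C (C a) := rfl
    rw [this, MvPolynomial.map_C, RingHom.coe_coe, translateD_C]
  | add x y hx hy => rw [map_add, map_add, map_add, map_add, hx, hy]
  | mul_X x r hx =>
    have key : MvPolynomial.map (translateD ρ Λ g : MvPolynomial (Λ × Fin m) k →+* _)
        (polar k m Λ (X r)) = polar k m Λ (∑ r', C ((ρ g : Matrix (Fin m) (Fin m) k) r r') * X r') := by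
      simp only [polar, aeval_X, map_sum, map_mul, MvPolynomial.map_X, MvPolynomial.map_C,
        RingHom.coe_coe, translateD_X]
      simp only [aeval_C, Finset.mul_sum]
      rw [Finset.sum_comm]
      refine Finset.sum_congr rfl fun r' _ => Finset.sum_congr rfl fun l _ => ?_
      have : algebraMap k (MvPolynomial Λ (MvPolynomial (Λ × Fin m) k))
          ((ρ g : Matrix (Fin m) (Fin m) k) r r') =
          C (C ((ρ g : Matrix (Fin m) (Fin m) k) r r')) := rfl
      rw [this]
      ring
    rw [map_mul, map_mul, map_mul, map_mul, hx, translate_X, key]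

lemma PP_le_invD (Λ : Type) [Fintype Λ] : PP ρ Λ ≤ invD ρ Λ := by
  refine Algebra.adjoin_le ?_
  rintro _ ⟨f, hf, β, rfl⟩ g
  have h1 := map_polar ρ (Λ := Λ) g f
  have h2 : translate ρ g f = f := hf g
  rw [h2] at h1
  have h3 := congrArg (coeff β) h1
  rw [MvPolynomial.coeff_map] at h3
  exact h3

end Pool.Agent.H86.Polar
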