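import Mathlib
import Pool.Agent.H86.Polar.Inv

/-!
# Products over the group, separation, integrality
-/

set_option linter.unusedSectionVars false

namespace Pool.Agent.H86.Polar

open MvPolynomial

universe u v

variable {k : Type u} [Field k] {G : Type v} [Group G] [Fintype G] {m : ℕ}
  (ρ : G →* Matrix.GeneralLinearGroup (Fin m) k)

/-- `∏_g (Z + ∑_r s_r (g v)_r)` over `k[V]`. -/
noncomputable def FF : MvPolynomial (Option (Fin m)) (MvPolynomial (Fin m) k) :=
  ∏ g : G, (X none + ∑ r, X (some r) * C (translate ρ g (X r)))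

lemma FF_coeff_mem (β : Option (Fin m) →₀ ℕ) : (FF ρ).coeff β ∈ inv ρ := by
  intro h
  have h1 : MvPolynomial.map (translate ρ h : MvPolynomial (Fin m) k →+* _) (FF ρ) = FF ρ := by
    unfold FF
    rw [map_prod]
    simp only [map_add, map_sum, map_mul, MvPolynomial.map_X, MvPolynomial.map_C,
      RingHom.coe_coe, translate_mul]
    exact Fintype.prod_equiv (Equiv.mulRight h) _ _ (fun g => rfl)
  have h2 := congrArg (coeff β) h1
  rw [MvPolynomial.coeff_map] at h2
  exact h2

/-- `f ↦ f(∑ t_l v_l)` with values in a polynomial ring with extra variables. -/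
noncomputable def PhiHom (k : Type u) [Field k] (m : ℕ) (Λ : Type) [Fintype Λ] :
    MvPolynomial (Fin m) k →+* MvPolynomial (Option (Fin m ⊕ Λ)) (MvPolynomial (Λ × Fin m) k) :=
  (eval₂Hom (C : MvPolynomial (Λ × Fin m) k →+* _) (fun l => X (some (Sum.inr l)))).comp
    (polar k m Λ : MvPolynomial (Fin m) k →+* _)

lemma PhiHom_X {Λ : Type} [Fintype Λ] (r : Fin m) :
    PhiHom k m Λ (X r) = ∑ l, X (some (Sum.inr l)) * C (X (l, r)) := by
  unfold PhiHom
  simp [polar]

lemma PhiHom_C {Λ : Type} [Fintype Λ] (a : k) :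
    PhiHom k m Λ (C a) = C (C a) := by
  have h1 : polar k m Λ (C a) = C (C a) := by
    have h2 : (C a : MvPolynomial (Fin m) k) = algebraMap k _ a := rfl
    rw [h2, AlgHom.commutes]
    rfl
  unfold PhiHom
  rw [RingHom.comp_apply, RingHom.coe_coe, h1]
  simp

lemma PhiHom_mem {Λ : Type} [Fintype Λ] {f : MvPolynomial (Fin m) k} (hf : f ∈ inv ρ) :
    PhiHom k m Λ f ∈ coeffRing (PP ρ Λ).toSubring (Option (Fin m ⊕ Λ)) := by
  unfold PhiHom
  rw [RingHom.comp_apply, coe_eval₂Hom]
  refine eval₂_mem _ _ _ _ (fun β => C_mem_coeffRing ?_) (fun l => X_mem_coeffRing _)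
  exact polar_coeff_mem ρ hf β

/-- `∏_g (Z + ∑_{r,l} s_r t_l (g v_l)_r)`. -/
noncomputable def EL (Λ : Type) [Fintype Λ] :
    MvPolynomial (Option (Fin m ⊕ Λ)) (MvPolynomial (Λ × Fin m) k) :=
  ∏ g : G, (X none + ∑ r, X (some (Sum.inl r)) *
    ∑ l, X (some (Sum.inr l)) * C (translateD ρ Λ g (X (l, r))))

lemma EL_eq {Λ : Type} [Fintype Λ] :
    EL ρ Λ = eval₂ (PhiHom k m Λ) (fun o => Option.elim o (X none) fun r => X (some (Sum.inl r)))
      (FF ρ) := by
  unfold EL FF
  rw [eval₂_prod]
  refine Finset.prod_congr rfl fun g _ => ?_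
  rw [eval₂_add, eval₂_X, eval₂_sum]
  simp only [Option.elim_none]
  refine congrArg₂ (· + ·) rfl (Finset.sum_congr rfl fun r _ => ?_)
  rw [eval₂_mul, eval₂_X, eval₂_C, translate_X, map_sum]
  simp only [Option.elim_some]
  refine congrArg₂ (· * ·) rfl ?_
  simp only [map_mul, PhiHom_C, PhiHom_X, translateD_X, map_sum, Finset.mul_sum]
  rw [Finset.sum_comm]
  refine Finset.sum_congr rfl fun r' _ => Finset.sum_congr rfl fun l _ => ?_
  ring

lemma EL_mem (Λ : Type) [Fintype Λ] :
    EL ρ Λ ∈ coeffRing (PP ρ Λ).toSubring (Option (Fin m ⊕ Λ)) := by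
  rw [EL_eq]
  refine eval₂_mem _ _ _ _ (fun β => PhiHom_mem ρ (FF_coeff_mem ρ β)) ?_
  rintro (_ | r)
  · exact X_mem_coeffRing _
  · exact X_mem_coeffRing _

/-- general evaluation. -/
lemma EL_eval_mem {Λ : Type} [Fintype Λ] {T'' : Type*} [CommRing T'']
    (φ : MvPolynomial (Λ × Fin m) k →+* T'') (R : Subring T'') (hR : ∀ x ∈ PP ρ Λ, φ x ∈ R)
    (a : T'') (ha : a ∈ R) (s : Fin m → T'') (hs : ∀ r, s r ∈ R) (t : Λ → T'')
    (ht : ∀ l, t l ∈ R) :
    ∏ g : G, (a + ∑ r, s r * ∑ l, t l * φ (translateD ρ Λ g (X (l, r)))) ∈ R := by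
  have h := eval₂_mem R (EL ρ Λ) φ (fun o => Option.elim o a (Sum.elim s t))
    (fun β => hR _ ((mem_coeffRing.mp (EL_mem ρ Λ)) β)) (by
      rintro (_ | r | l)
      · exact ha
      · exact hs r
      · exact ht l)
  convert h using 1
  unfold EL
  rw [eval₂_prod]
  refine Finset.prod_congr rfl fun g _ => ?_
  simp [eval₂_add, eval₂_sum, eval₂_mul]

/-- The points `(g v_l)_r`. -/
noncomputable def zz (Λ : Type) {N : ℕ} (e : Fin N ≃ G) (r : Fin m) (l : Λ) (i : Fin N) :
    MvPolynomial (Λ × Fin m) k :=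
  translateD ρ Λ (e i) (X (l, r))

lemma PA_zz_le (Λ : Type) [Fintype Λ] {N : ℕ} (e : Fin N ≃ G) (r : Fin m) :
    PA k (zz ρ Λ e r) Finset.univ ≤ PP ρ Λ := by
  classical
  refine Algebra.adjoin_le ?_
  rintro _ ⟨β, rfl⟩
  have h := EL_eval_mem ρ (C : MvPolynomial (Λ × Fin m) k →+* MvPolynomial (Option Λ) _)
    (coeffRing (PP ρ Λ).toSubring (Option Λ)) (fun x hx => C_mem_coeffRing hx) (X none)
    (X_mem_coeffRing _) (fun r' => if r' = r then 1 else 0) (fun r' => by
      split_ifs
      · exact Subring.one_mem _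
      · exact Subring.zero_mem _) (fun l => X (some l)) (fun l => X_mem_coeffRing _)
  have h2 : EE (zz ρ Λ e r) Finset.univ = ∏ g : G, (X none + ∑ r', (if r' = r then 1 else 0) *
      ∑ l, X (some l) * C (translateD ρ Λ g (X (l, r')))) := by
    unfold EE linForm
    refine Fintype.prod_equiv e _ _ fun i => ?_
    simp only [ite_mul, one_mul, zero_mul, Finset.sum_ite_eq', Finset.mem_univ, if_true, zz]
    refine congrArg₂ (· + ·) rfl (Finset.sum_congr rfl fun l _ => ?_)
    ring
  rw [← h2] at h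
  exact (mem_coeffRing.mp h) β

/-- separation -/
lemma separated {Λ : Type} [Fintype Λ] {Ω : Type*} [Field Ω]
    (φ ψ : MvPolynomial (Λ × Fin m) k →+* Ω) (h : ∀ x ∈ PP ρ Λ, φ x = ψ x)
    {f : MvPolynomial (Λ × Fin m) k} (hf : f ∈ invD ρ Λ) : φ f = ψ f := by
  classical
  have hmap : MvPolynomial.map φ (EL ρ Λ) = MvPolynomial.map ψ (EL ρ Λ) := by
    ext β
    rw [MvPolynomial.coeff_map, MvPolynomial.coeff_map]
    exact h _ ((mem_coeffRing.mp (EL_mem ρ Λ)) β)
  let η : MvPolynomial (Option (Fin m ⊕ Λ)) Ω →+* MvPolynomial (Option (Fin m ⊕ Λ)) Ω :=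
    eval₂Hom C (fun o => Option.elim o
      (-∑ r, X (some (Sum.inl r)) * ∑ l, X (some (Sum.inr l)) * C (ψ (X (l, r))))
      (fun x => X (some x)))
  have hη : ∀ χ : MvPolynomial (Λ × Fin m) k →+* Ω, η (MvPolynomial.map χ (EL ρ Λ)) =
      ∏ g : G, (-∑ r, X (some (Sum.inl r)) * ∑ l, X (some (Sum.inr l)) * C (ψ (X (l, r))) +
        ∑ r, X (some (Sum.inl r)) * ∑ l, X (some (Sum.inr l)) *
          C (χ (translateD ρ Λ g (X (l, r))))) := by
    intro χ
    unfold EL
    rw [map_prod, map_prod]
    refine Finset.prod_congr rfl fun g _ => ?_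
    simp [η]
  have h0 : η (MvPolynomial.map φ (EL ρ Λ)) = 0 := by
    rw [hmap, hη]
    refine Finset.prod_eq_zero (Finset.mem_univ 1) ?_
    simp only [translateD_one]
    ring
  rw [hη, Finset.prod_eq_zero_iff] at h0
  obtain ⟨g, -, hg⟩ := h0
  have hcoef : ∀ r l, φ (translateD ρ Λ g (X (l, r))) = ψ (X (l, r)) := by
    intro r l
    have h1 : ∑ r, ∑ l, (X (some (Sum.inl r)) * X (some (Sum.inr l)) *
        C (φ (translateD ρ Λ g (X (l, r))) - ψ (X (l, r))) :
          MvPolynomial (Option (Fin m ⊕ Λ)) Ω) = 0 := by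
      rw [← hg]
      simp only [Finset.mul_sum]
      rw [neg_add_eq_sub, ← Finset.sum_sub_distrib]
      refine Finset.sum_congr rfl fun r _ => ?_
      rw [← Finset.sum_sub_distrib]
      refine Finset.sum_congr rfl fun l _ => ?_
      rw [map_sub]
      ring
    have h2 := congrArg (coeff (Finsupp.single (some (Sum.inl r) : Option (Fin m ⊕ Λ)) 1 +
      Finsupp.single (some (Sum.inr l)) 1)) h1
    rw [coeff_zero, coeff_sum] at h2
    simp only [coeff_sum] at h2
    have h3 : ∀ r' l', coeff (Finsupp.single (some (Sum.inl r) : Option (Fin m ⊕ Λ)) 1 +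
        Finsupp.single (some (Sum.inr l)) 1) (X (some (Sum.inl r')) * X (some (Sum.inr l')) *
        C (φ (translateD ρ Λ g (X (l', r'))) - ψ (X (l', r'))) :
          MvPolynomial (Option (Fin m ⊕ Λ)) Ω) =
        if r' = r ∧ l' = l then φ (translateD ρ Λ g (X (l, r))) - ψ (X (l, r)) else 0 := by
      intro r' l'
      have h4 : (X (some (Sum.inl r')) * X (some (Sum.inr l')) *
        C (φ (translateD ρ Λ g (X (l', r'))) - ψ (X (l', r'))) :
          MvPolynomial (Option (Fin m ⊕ Λ)) Ω) =
          monomial (Finsupp.single (some (Sum.inl r') : Option (Fin m ⊕ Λ)) 1 +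
            Finsupp.single (some (Sum.inr l')) 1)
            (φ (translateD ρ Λ g (X (l', r'))) - ψ (X (l', r'))) := by
        generalize φ (translateD ρ Λ g (X (l', r'))) - ψ (X (l', r')) = c
        rw [mul_comm, X, X, monomial_mul, C_mul_monomial]
        simp
      rw [h4, coeff_monomial]
      by_cases hc : r' = r ∧ l' = l
      · obtain ⟨rfl, rfl⟩ := hc
        simp
      · rw [if_neg hc, if_neg]
        intro heq
        apply hc
        constructor
        · have := DFunLike.congr_fun heq (some (Sum.inl r'))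
          by_contra hne
          simp [Ne.symm hne] at this
        · have := DFunLike.congr_fun heq (some (Sum.inr l'))
          by_contra hne
          simp [Ne.symm hne] at this
    simp only [h3] at h2
    rw [Finset.sum_eq_single r, Finset.sum_eq_single l] at h2
    · simpa [sub_eq_zero] using h2
    · intro l' _ hl'
      simp [hl']
    · simp
    · intro r' _ hr'
      simp [hr']
    · simp
  have hψ : ψ = φ.comp (translateD ρ Λ g : MvPolynomial (Λ × Fin m) k →+* _) := by
    apply MvPolynomial.ringHom_ext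
    · intro a
      rw [RingHom.comp_apply, RingHom.coe_coe, translateD_C]
      exact (h _ ((PP ρ Λ).algebraMap_mem a)).symm
    · rintro ⟨l, r⟩
      rw [RingHom.comp_apply, RingHom.coe_coe]
      exact (hcoef r l).symm
  rw [hψ, RingHom.comp_apply, RingHom.coe_coe, hf g]

/-- integrality -/
lemma integral_PP (Λ : Type) [Fintype Λ] :
    Algebra.IsIntegral (PP ρ Λ) (MvPolynomial (Λ × Fin m) k) := by
  classical
  refine ⟨fun f => ?_⟩
  induction f using MvPolynomial.induction_on with
  | C a =>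
    have : (C a : MvPolynomial (Λ × Fin m) k) = algebraMap (PP ρ Λ) _
        ⟨C a, (PP ρ Λ).algebraMap_mem a⟩ := rfl
    rw [this]
    exact isIntegral_algebraMap
  | add x y hx hy => exact hx.add hy
  | mul_X x lr hx =>
    obtain ⟨l, r⟩ := lr
    refine hx.mul ?_
    have h := EL_eval_mem ρ (Polynomial.C : MvPolynomial (Λ × Fin m) k →+* Polynomial _)
      (polyRing (PP ρ Λ).toSubring) (fun x hx => polyC_mem_polyRing hx) Polynomial.X
      polyX_mem_polyRing (fun r' => if r' = r then -1 else 0) (fun r' => by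
        split_ifs
        · exact Subring.neg_mem _ (Subring.one_mem _)
        · exact Subring.zero_mem _) (fun l' => if l' = l then 1 else 0) (fun l' => by
        split_ifs
        · exact Subring.one_mem _
        · exact Subring.zero_mem _)
    have h2 : ∏ g : G, (Polynomial.X + ∑ r', (if r' = r then (-1 : Polynomial _) else 0) *
        ∑ l', (if l' = l then (1 : Polynomial _) else 0) *
          Polynomial.C (translateD ρ Λ g (X (l', r')))) =
        ∏ g : G, (Polynomial.X - Polynomial.C (translateD ρ Λ g (X (l, r)))) := by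
      refine Finset.prod_congr rfl fun g _ => ?_
      simp only [ite_mul, one_mul, zero_mul, Finset.sum_ite_eq', Finset.mem_univ, if_true]
      ring
    rw [h2] at h
    obtain ⟨q, hq⟩ := h
    have hmon : q.Monic := by
      have h3 : (Polynomial.map (PP ρ Λ).toSubring.subtype q).Monic := by
        have : Polynomial.map (PP ρ Λ).toSubring.subtype q =
            ∏ g : G, (Polynomial.X - Polynomial.C (translateD ρ Λ g (X (l, r)))) := hq
        rw [this]
        exact Polynomial.monic_prod_of_monic _ _ fun g _ => Polynomial.monic_X_sub_C _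
      exact Polynomial.monic_of_injective Subtype.coe_injective h3
    refine ⟨q, hmon, ?_⟩
    have h4 : Polynomial.eval₂ (algebraMap (PP ρ Λ) (MvPolynomial (Λ × Fin m) k)) (X (l, r)) q =
        (Polynomial.map (PP ρ Λ).toSubring.subtype q).eval (X (l, r)) := by
      rw [Polynomial.eval_map]
      rfl
    rw [h4]
    have : Polynomial.map (PP ρ Λ).toSubring.subtype q =
        ∏ g : G, (Polynomial.X - Polynomial.C (translateD ρ Λ g (X (l, r)))) := hq
    rw [this, Polynomial.eval_prod]
    refine Finset.prod_eq_zero (Finset.mem_univ 1) ?_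
    rw [translateD_one]
    simp

/-- The finite-level statement: every invariant is a `p`-power root of an element of `PP`. -/
lemma finite_level (p : ℕ) [Fact p.Prime] [CharP k p] (Λ : Type) [Fintype Λ]
    {f : MvPolynomial (Λ × Fin m) k} (hf : f ∈ invD ρ Λ) : ∃ n : ℕ, f ^ p ^ n ∈ PP ρ Λ := by
  have hint := integral_PP ρ Λ
  have hinj : Function.Injective (algebraMap (PP ρ Λ) (MvPolynomial (Λ × Fin m) k)) :=
    Subtype.coe_injective
  have hchar : CharP (PP ρ Λ) p := RingHom.charP _ hinj p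
  obtain ⟨n, hn⟩ := radical_of_separated p hinj f (by
    intro Ω _ _ φ ψ hφψ
    refine separated ρ φ ψ (fun x hx => ?_) hf
    have := RingHom.congr_fun hφψ ⟨x, hx⟩
    exact this)
  refine ⟨n, ?_⟩
  obtain ⟨a, ha⟩ := hn
  rw [← ha]
  exact a.2

end Pool.Agent.H86.Polar
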