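import Mathlib
import Pool.Agent.H86.Polar.Inv2

/-!
# The uniform statement
-/

set_option linter.unusedSectionVars false

namespace Pool.Agent.H86.Polar

open MvPolynomial

universe u v

section General

variable {k : Type u} [Field k] {T : Type*} [CommRing T] [Algebra k T]

/-- elements whose `p^d`-th power lies in `P`. -/
def frobPre (p : ℕ) [Fact p.Prime] [CharP T p] (P : Subalgebra k T) (d : ℕ) : Subalgebra k T where
  carrier := {x | x ^ p ^ d ∈ P}
  mul_mem' := fun ha hb => by
    rw [Set.mem_ofPred_eq, mul_pow]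
    exact P.mul_mem ha hb
  add_mem' := fun ha hb => by
    rw [Set.mem_ofPred_eq, add_pow_char_pow]
    exact P.add_mem ha hb
  algebraMap_mem' := fun r => by
    rw [Set.mem_ofPred_eq, ← map_pow]
    exact P.algebraMap_mem _

lemma mem_frobPre {p : ℕ} [Fact p.Prime] [CharP T p] {P : Subalgebra k T} {d : ℕ} {x : T} :
    x ∈ frobPre p P d ↔ x ^ p ^ d ∈ P := Iff.rfl

lemma exists_sum_of_mem {ι : Type*} [Fintype ι] (P : Subalgebra k T) (μ : ι → T) {x : T}
    (hx : x ∈ Subalgebra.toSubmodule P * Submodule.span k (Set.range μ)) :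
    ∃ h : ι → T, (∀ i, h i ∈ P) ∧ x = ∑ i, h i * μ i := by
  refine Submodule.mul_induction_on hx (fun a ha b hb => ?_) (fun x y hx hy => ?_)
  · obtain ⟨c, rfl⟩ := (Submodule.mem_span_range_iff_exists_fun k).mp hb
    refine ⟨fun i => a * algebraMap k T (c i), fun i => P.mul_mem ha (P.algebraMap_mem _), ?_⟩
    rw [Finset.mul_sum]
    refine Finset.sum_congr rfl fun i _ => ?_
    rw [Algebra.smul_def]
    ring
  · obtain ⟨h, hh, rfl⟩ := hx
    obtain ⟨h', hh', rfl⟩ := hy
    refine ⟨fun i => h i + h' i, fun i => P.add_mem (hh i) (hh' i), ?_⟩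
    rw [← Finset.sum_add_distrib]
    refine Finset.sum_congr rfl fun i _ => ?_
    ring

/-- The `e_{p^a}`-trick. -/
lemma trick (p : ℕ) [Fact p.Prime] [CharP T p] (R : Subalgebra k T) {ι : Type*} [Fintype ι]
    {N : ℕ} (z : ι → Fin N → T) (h : ι → T) (hh : ∀ s, h s ∈ R)
    (hcoef : ∀ β, (EE z Finset.univ).coeff β ∈ R) (W : T) (hW : ∀ i, ∑ s, z s i * h s = W)
    (a N' : ℕ) (hN : N = p ^ a * N') (hN' : (N' : k) ≠ 0) : W ^ p ^ a ∈ R := by
  have h1 := spec_mem z Finset.univ (Polynomial.C : T →+* Polynomial T) (polyRing R.toSubring)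
    (fun β => polyC_mem_polyRing (hcoef β)) 1 (Subring.one_mem _)
    (fun s => Polynomial.C (h s) * Polynomial.X)
    (fun s => Subring.mul_mem _ (polyC_mem_polyRing (hh s)) polyX_mem_polyRing)
  have h2 : ∏ i : Fin N, (1 + ∑ s, Polynomial.C (z s i) * (Polynomial.C (h s) * Polynomial.X)) =
      (1 + Polynomial.C W * Polynomial.X : Polynomial T) ^ (p ^ a * N') := by
    rw [← hN]
    have : ∀ i ∈ (Finset.univ : Finset (Fin N)),
        (1 + ∑ s, Polynomial.C (z s i) * (Polynomial.C (h s) * Polynomial.X)) =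
        (1 + Polynomial.C W * Polynomial.X : Polynomial T) := by
      intro i _
      refine congrArg₂ (· + ·) rfl ?_
      rw [← hW i, map_sum, Finset.sum_mul]
      refine Finset.sum_congr rfl fun s _ => ?_
      rw [map_mul]
      ring
    rw [Finset.prod_congr rfl this]
    simp
  rw [h2, mem_polyRing] at h1
  have h3 := h1 (p ^ a)
  rw [coeff_one_add_pow] at h3
  have h4 : W ^ p ^ a = algebraMap k T ((N' : k)⁻¹) * ((N' : T) * W ^ p ^ a) := by
    rw [← mul_assoc, ← map_natCast (algebraMap k T) N', ← map_mul, inv_mul_cancel₀ hN', map_one,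
      one_mul]
  rw [h4]
  exact R.mul_mem (R.algebraMap_mem _) h3

end General

section Restrict

variable {T : Type*} [CommRing T] {L I : Type*} [Fintype L] [Nonempty L]

/-- Coefficients of `EE z A` only involve `|A|` letters at a time. -/
lemma EE_restrict_mem (z : L → I → T) (A : Finset I) (n : ℕ) (hn : A.card ≤ n) (R : Subring T)
    (hR : ∀ τ : Fin n → L, ∀ β, (EE (fun j i => z (τ j) i) A).coeff β ∈ R)
    (β : Option L →₀ ℕ) : (EE z A).coeff β ∈ R := by
  classical
  by_cases hβ : β.degree = A.card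
  swap
  · have : (EE z A).coeff β = 0 := (prod_linForm_homog z A).coeff_eq_zero hβ
    rw [this]
    exact R.zero_mem
  set F : Finset L := Finset.univ.filter fun s => β (some s) ≠ 0 with hF
  have hFcard : F.card ≤ n := by
    refine le_trans ?_ hn
    rw [← hβ]
    calc F.card = ∑ s ∈ F, 1 := by simp
      _ ≤ ∑ s ∈ F, β (some s) := Finset.sum_le_sum fun s hs => by
          rw [hF, Finset.mem_filter] at hs
          exact Nat.one_le_iff_ne_zero.mpr hs.2
      _ = ∑ o ∈ F.map Function.Embedding.some, β o := by rw [Finset.sum_map]; rfl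
      _ ≤ ∑ o ∈ β.support, β o := by
          refine Finset.sum_le_sum_of_subset ?_
          intro o ho
          rw [Finset.mem_map] at ho
          obtain ⟨s, hs, rfl⟩ := ho
          rw [hF, Finset.mem_filter] at hs
          exact Finsupp.mem_support_iff.mpr hs.2
      _ = β.degree := rfl
  obtain ⟨emb⟩ : Nonempty ({s // s ∈ F} ↪ Fin n) := by
    apply Function.Embedding.nonempty_of_card_le
    simpa using hFcard
  let τ : Fin n → L := Function.extend emb (fun s => s.1) (fun _ => Classical.arbitrary L)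
  have hτ : ∀ s : {s // s ∈ F}, τ (emb s) = s.1 := fun s => emb.injective.extend_apply _ _ s
  have h1 : ∀ β, (EE (fun (s : {s // s ∈ F}) i => z s.1 i) A).coeff β ∈ R := by
    intro β
    have h2 := EE_comp_mem (fun j i => z (τ j) i) A (emb : {s // s ∈ F} → Fin n) R (hR τ) β
    have h3 : (fun (l' : {s // s ∈ F}) (i : I) => z (τ (emb l')) i) = fun s i => z s.1 i := by
      funext s i
      rw [hτ]
    simp only [h3] at h2
    exact h2
  have h4 := spec_mem (fun (s : {s // s ∈ F}) i => z s.1 i) A (C : T →+* MvPolynomial (Option L) T)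
    (coeffRing R (Option L)) (fun β => C_mem_coeffRing (h1 β)) (X none) (X_mem_coeffRing _)
    (fun s => X (some s.1)) (fun s => X_mem_coeffRing _)
  set J : Ideal (MvPolynomial (Option L) T) := Ideal.span (X '' {o | ∃ s, s ∉ F ∧ o = some s})
    with hJ
  have h5 : EE z A - ∏ i ∈ A, (X none + ∑ s : {s // s ∈ F}, C (z s.1 i) * X (some s.1)) ∈ J := by
    rw [← Ideal.Quotient.eq]
    unfold EE
    rw [map_prod, map_prod]
    refine Finset.prod_congr rfl fun i _ => ?_
    rw [Ideal.Quotient.eq]
    unfold linForm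
    have h6 : ∑ s : {s // s ∈ F}, (C (z s.1 i) * X (some s.1) : MvPolynomial (Option L) T) =
        ∑ s ∈ F, C (z s i) * X (some s) := by
      rw [← Finset.sum_coe_sort F (fun s => (C (z s i) * X (some s) : MvPolynomial (Option L) T))]
    rw [h6, add_sub_add_left_eq_sub, ← Finset.sum_sdiff (Finset.subset_univ F), add_sub_cancel_right]
    refine J.sum_mem fun s hs => J.mul_mem_left _ ?_
    refine Ideal.subset_span ⟨some s, ⟨s, ?_, rfl⟩, rfl⟩
    exact (Finset.mem_sdiff.mp hs).2
  rw [hJ, mem_ideal_span_X_image] at h5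
  have h7 : coeff β (EE z A -
      ∏ i ∈ A, (X none + ∑ s : {s // s ∈ F}, C (z s.1 i) * X (some s.1))) = 0 := by
    by_contra hne
    obtain ⟨o, ⟨s, hs, rfl⟩, ho⟩ := h5 β (mem_support_iff.mpr hne)
    apply hs
    rw [hF, Finset.mem_filter]
    exact ⟨Finset.mem_univ _, ho⟩
  rw [coeff_sub, sub_eq_zero] at h7
  rw [h7]
  exact (mem_coeffRing.mp h4) β

end Restrict

end Pool.Agent.H86.Polar
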