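import Mathlib
import Pool.Agent.H86.Polar.Final

/-!
# The main theorem
-/

set_option linter.unusedSectionVars false

namespace Pool.Agent.H86.Polar

open MvPolynomial

universe u v

variable {k : Type u} [Field k] {G : Type v} [Group G] [Fintype G] {m : ℕ}
  (ρ : G →* Matrix.GeneralLinearGroup (Fin m) k) {N : ℕ} (e : Fin N ≃ G)

/-- the bounded monomials -/
noncomputable def mon (Λ : Type) {Θ : Type} [Fintype Θ] (w : Θ → ℕ)
    (s : Fin m → Fin N → Θ → Option Λ) : MvPolynomial (Λ × Fin m) k :=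
  ∏ r, ∏ i, ∏ t, val (zz ρ Λ e r) i (w t) (s r i t)

lemma prod_bm_eq (Λ : Type) [Fintype Λ] {Θ : Type} [Fintype Θ] (w : Θ → ℕ) :
    ∏ r, bm k (zz ρ Λ e r) Finset.univ w = Submodule.span k (Set.range (mon ρ e Λ w)) := by
  classical
  have h1 : ∀ r ∈ (Finset.univ : Finset (Fin m)), bm k (zz ρ Λ e r) Finset.univ w =
      Submodule.span k (Set.range fun s : Fin N → Θ → Option Λ =>
        ∏ i, ∏ t, val (zz ρ Λ e r) i (w t) (s i t)) := fun r _ =>
    bm_eq_span (zz ρ Λ e r) Finset.univ w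
  rw [Finset.prod_congr rfl h1]
  exact prod_span_range Finset.univ (fun r (s : Fin N → Θ → Option Λ) =>
    ∏ i, ∏ t, val (zz ρ Λ e r) i (w t) (s i t))

lemma frob_mem (p : ℕ) [Fact p.Prime] [CharP k p] {c : ℕ} {Θ : Type} [Fintype Θ] {w : Θ → ℕ}
    (hG : Good k p (Finset.univ : Finset (Fin N)) c w) (Λ : Type) [Fintype Λ]
    (f : MvPolynomial (Λ × Fin m) k) :
    f ^ p ^ c ∈ Subalgebra.toSubmodule (PP ρ Λ) * ∏ r, bm k (zz ρ Λ e r) Finset.univ w := by
  classical
  set P := Subalgebra.toSubmodule (PP ρ Λ) with hP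
  set M := P * ∏ r, bm k (zz ρ Λ e r) Finset.univ w with hM
  have hPP : P * P = P := (PP ρ Λ).isIdempotentElem_toSubmodule
  have h1 : (1 : MvPolynomial (Λ × Fin m) k) ∈ M := by
    rw [← Submodule.one_le, hM]
    calc (1 : Submodule k (MvPolynomial (Λ × Fin m) k)) = 1 * 1 := (one_mul 1).symm
      _ ≤ _ := mul_le_mul' (Submodule.one_le.mpr (PP ρ Λ).one_mem)
          (one_le_prod _ _ fun r _ => one_le_bm _ _ _)
  have hX : ∀ (l : Λ) (r : Fin m), ∀ x ∈ M, x * X (l, r) ^ p ^ c ∈ M := by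
    intro l r x hx
    set i := e.symm 1 with hi
    have h2 : (X (l, r) : MvPolynomial (Λ × Fin m) k) ^ p ^ c ∈ ee k (zz ρ Λ e r) i (p ^ c) := by
      have := pow_mem_ee (k := k) (zz ρ Λ e r) i (p ^ c) l
      rw [zz, hi, Equiv.apply_symm_apply, translateD_one] at this
      exact this
    have h3 : M * ee k (zz ρ Λ e r) i (p ^ c) ≤ M := by
      have hle : PM k (zz ρ Λ e r) Finset.univ ≤ P := PA_zz_le ρ Λ e r
      have hg := hG Λ (MvPolynomial (Λ × Fin m) k) (zz ρ Λ e r) i (Finset.mem_univ i)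
      rw [hM, ← Finset.mul_prod_erase Finset.univ _ (Finset.mem_univ r)]
      set bmr := bm k (zz ρ Λ e r) Finset.univ w
      set rest := ∏ x ∈ Finset.univ.erase r, bm k (zz ρ Λ e x) Finset.univ w
      set E := ee k (zz ρ Λ e r) i (p ^ c)
      calc P * (bmr * rest) * E = P * (E * (1 * bmr)) * rest := by ring
        _ ≤ P * (E * (PM k (zz ρ Λ e r) Finset.univ * bmr)) * rest :=
            mul_le_mul' (mul_le_mul' le_rfl (mul_le_mul' le_rfl
              (mul_le_mul' (one_le_PM _ _) le_rfl))) le_rfl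
        _ ≤ P * (PM k (zz ρ Λ e r) Finset.univ * bmr) * rest :=
            mul_le_mul' (mul_le_mul' le_rfl hg) le_rfl
        _ ≤ P * (P * bmr) * rest :=
            mul_le_mul' (mul_le_mul' le_rfl (mul_le_mul' hle le_rfl)) le_rfl
        _ = (P * P) * (bmr * rest) := by ring
        _ = P * (bmr * rest) := by rw [hPP]
    exact h3 (Submodule.mul_mem_mul hx h2)
  induction f using MvPolynomial.induction_on with
  | C a =>
    have : (C a : MvPolynomial (Λ × Fin m) k) ^ p ^ c = (a ^ p ^ c) • 1 := by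
      rw [← C_pow, Algebra.smul_def, mul_one]
      rfl
    rw [this]
    exact M.smul_mem _ h1
  | add x y hx hy =>
    rw [add_pow_char_pow]
    exact M.add_mem hx hy
  | mul_X x lr hx =>
    rw [mul_pow]
    exact hX lr.1 lr.2 _ hx

section Transport

variable {Λ₀ Λ : Type} [Fintype Λ₀] [Fintype Λ] (σ : Λ₀ → Λ)

/-- relabelling of the vectors. -/
noncomputable def relab (k : Type u) [Field k] (m : ℕ) {Λ₀ Λ : Type} (σ : Λ₀ → Λ) :
    MvPolynomial (Λ₀ × Fin m) k →ₐ[k] MvPolynomial (Λ × Fin m) k :=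
  rename fun lr => (σ lr.1, lr.2)

lemma relab_X (l : Λ₀) (r : Fin m) :
    relab k m σ (X (l, r)) = X (σ l, r) := by
  simp [relab]

lemma relab_C (a : k) : relab k m σ (C a) = C a := by
  have : (C a : MvPolynomial (Λ₀ × Fin m) k) = algebraMap k _ a := rfl
  rw [this, AlgHom.commutes]
  rfl

lemma relab_translateD (g : G) (f : MvPolynomial (Λ₀ × Fin m) k) :
    relab k m σ (translateD ρ Λ₀ g f) = translateD ρ Λ g (relab k m σ f) := by
  have : (relab k m σ).comp (translateD ρ Λ₀ g) = (translateD ρ Λ g).comp (relab k m σ) := by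
    apply MvPolynomial.algHom_ext
    rintro ⟨l, r⟩
    rw [AlgHom.comp_apply, AlgHom.comp_apply, translateD_X, relab_X, translateD_X, map_sum]
    refine Finset.sum_congr rfl fun r' _ => ?_
    rw [map_mul, relab_C, relab_X]
  exact DFunLike.congr_fun this f

lemma relab_polar (f : MvPolynomial (Fin m) k) :
    MvPolynomial.map (relab k m σ : MvPolynomial (Λ₀ × Fin m) k →+* _) (polar k m Λ₀ f) =
      eval₂ (C : MvPolynomial (Λ × Fin m) k →+* _)
        (fun l => letI := Classical.decEq Λ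
          ∑ a ∈ Finset.univ.filter (fun a => σ a = l), X a) (polar k m Λ f) := by
  classical
  induction f using MvPolynomial.induction_on with
  | C a =>
    have h1 : ∀ (Λ : Type) [Fintype Λ], polar k m Λ (C a) = C (C a) := by
      intro Λ _
      have h2 : (C a : MvPolynomial (Fin m) k) = algebraMap k _ a := rfl
      rw [h2, AlgHom.commutes]
      rfl
    rw [h1, h1, MvPolynomial.map_C, eval₂_C, RingHom.coe_coe, relab_C]
  | add x y hx hy => rw [map_add, map_add, map_add, eval₂_add, hx, hy]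
  | mul_X x r hx =>
    have key : MvPolynomial.map (relab k m σ : MvPolynomial (Λ₀ × Fin m) k →+* _)
        (polar k m Λ₀ (X r)) = eval₂ (C : MvPolynomial (Λ × Fin m) k →+* _)
        (fun l => letI := Classical.decEq Λ
          ∑ a ∈ Finset.univ.filter (fun a => σ a = l), X a) (polar k m Λ (X r)) := by
      simp only [polar, aeval_X, map_sum, map_mul, MvPolynomial.map_X, MvPolynomial.map_C,
        RingHom.coe_coe, relab_X, eval₂_sum, eval₂_mul, eval₂_X, eval₂_C, Finset.sum_mul]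
      rw [Finset.sum_sigma']
      symm
      refine Finset.sum_bij' (fun x _ => x.2) (fun l' _ => ⟨σ l', l'⟩) ?_ ?_ ?_ ?_ ?_
      · intro a _; exact Finset.mem_univ _
      · intro a _; simp
      · rintro ⟨a, b⟩ hab
        simp at hab
        subst hab
        rfl
      · intro a _; rfl
      · rintro ⟨a, b⟩ hab
        simp at hab
        subst hab
        rfl
    rw [map_mul, map_mul, map_mul, eval₂_mul, hx, key]

lemma relab_PP {x : MvPolynomial (Λ₀ × Fin m) k} (hx : x ∈ PP ρ Λ₀) :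
    relab k m σ x ∈ PP ρ Λ := by
  classical
  have h1 : (PP ρ Λ₀).map (relab k m σ) ≤ PP ρ Λ := by
    unfold PP polAlg
    rw [AlgHom.map_adjoin]
    refine Algebra.adjoin_le ?_
    rintro _ ⟨_, ⟨f, hf, β, rfl⟩, rfl⟩
    have h2 := congrArg (coeff β) (relab_polar (k := k) (m := m) σ f)
    rw [MvPolynomial.coeff_map] at h2
    have h3 : eval₂ (C : MvPolynomial (Λ × Fin m) k →+* MvPolynomial Λ₀ _)
        (fun l => letI := Classical.decEq Λ
          ∑ a ∈ Finset.univ.filter (fun a => σ a = l), X a) (polar k m Λ f) ∈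
        coeffRing (PP ρ Λ).toSubring Λ₀ := by
      refine eval₂_mem _ _ _ _ (fun β => C_mem_coeffRing ?_) (fun l => ?_)
      · exact polar_coeff_mem ρ hf β
      · exact Subring.sum_mem _ fun a _ => X_mem_coeffRing _
    have h4 := (mem_coeffRing.mp h3) β
    rw [← h2] at h4
    exact h4
  exact h1 ⟨x, hx, rfl⟩

lemma relab_mon {Θ : Type} [Fintype Θ] (w : Θ → ℕ) (s : Fin m → Fin N → Θ → Option Λ₀) :
    relab k m σ (mon ρ e Λ₀ w s) = mon ρ e Λ w (fun r i t => (s r i t).map σ) := by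
  unfold mon
  rw [map_prod]
  refine Finset.prod_congr rfl fun r _ => ?_
  rw [map_prod]
  refine Finset.prod_congr rfl fun i _ => ?_
  rw [map_prod]
  refine Finset.prod_congr rfl fun t _ => ?_
  refine map_val (relab k m σ) (zz ρ Λ₀ e r) (zz ρ Λ e r) σ (fun l i => ?_) i (w t) (s r i t)
  unfold zz
  rw [relab_translateD, relab_X]

end Transport

lemma EE_invD {Λ L : Type} [Fintype L] (μ : L → MvPolynomial (Λ × Fin m) k) (β : Option L →₀ ℕ) :
    (EE (fun l i => translateD ρ Λ (e i) (μ l)) Finset.univ).coeff β ∈ invD ρ Λ := by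
  intro h
  have h1 := map_coeff_EE
    (translateD ρ Λ h : MvPolynomial (Λ × Fin m) k →+* MvPolynomial (Λ × Fin m) k)
    (fun l i => translateD ρ Λ (e i) (μ l)) Finset.univ β
  have h2 : EE (fun l i => (translateD ρ Λ h : MvPolynomial (Λ × Fin m) k →+*
      MvPolynomial (Λ × Fin m) k) (translateD ρ Λ (e i) (μ l))) Finset.univ =
      EE (fun l i => translateD ρ Λ (e i) (μ l)) Finset.univ := by
    unfold EE linForm
    refine Fintype.prod_equiv ((e.trans (Equiv.mulRight h)).trans e.symm) _ _ fun i => ?_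
    refine congrArg₂ (· + ·) rfl (Finset.sum_congr rfl fun l _ => ?_)
    simp only [RingHom.coe_coe, translateD_mul, Equiv.trans_apply, Equiv.apply_symm_apply,
      Equiv.coe_mulRight]
  rw [h2] at h1
  exact h1

/-- **Main theorem**, for general finite label sets. -/
theorem uniform (p : ℕ) [Fact p.Prime] [CharP k p] :
    ∃ d : ℕ, ∀ (Λ : Type) [Fintype Λ] [Nonempty Λ] (f : MvPolynomial (Λ × Fin m) k),
      f ∈ invD ρ Λ → f ^ p ^ d ∈ PP ρ Λ := by
  classical
  have hp : p.Prime := Fact.out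
  set N := Fintype.card G with hNdef
  let e : Fin N ≃ G := (Fintype.equivFin G).symm
  have hNpos : 0 < N := Fintype.card_pos
  obtain ⟨c, Θ, _, w, hgood⟩ := good_all k p (Fin N) N
  have hG : Good k p (Finset.univ : Finset (Fin N)) c w := hgood _ (by simp)
  obtain ⟨a, N', hN', hN⟩ := Nat.exists_eq_pow_mul_and_not_dvd hNpos.ne' p hp.ne_one
  have hN'k : (N' : k) ≠ 0 := by
    intro h0
    exact hN' ((CharP.cast_eq_zero_iff k p N').mp h0)
  -- universal letters
  let Λ₀ : Type := Fin N × Fin m × Fin N × Θ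
  let sb : (Fin N → Fin m → Fin N → Θ → Bool) → Fin N → Fin m → Fin N → Θ → Option Λ₀ :=
    fun b j r i t => if b j r i t then some (j, r, i, t) else none
  let zb : (Fin N → Fin m → Fin N → Θ → Bool) → Fin N → Fin N → MvPolynomial (Λ₀ × Fin m) k :=
    fun b j i => translateD ρ Λ₀ (e i) (mon ρ e Λ₀ w (sb b j))
  have hd : ∀ (b : Fin N → Fin m → Fin N → Θ → Bool) (β : Option (Fin N) →₀ ℕ),
      ∃ d, ((EE (zb b) Finset.univ).coeff β) ^ p ^ d ∈ PP ρ Λ₀ := fun b β =>
    finite_level ρ p Λ₀ (EE_invD ρ e (fun j => mon ρ e Λ₀ w (sb b j)) β)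
  choose d hd using hd
  set d₁ := Finset.univ.sup fun b => (EE (zb b) Finset.univ).support.sup (d b) with hd₁
  have hd₁' : ∀ b β, (EE (zb b) Finset.univ).coeff β ∈ frobPre p (PP ρ Λ₀) d₁ := by
    intro b β
    rw [mem_frobPre]
    by_cases hβ : β ∈ (EE (zb b) Finset.univ).support
    · have h1 : d b β ≤ d₁ := (Finset.le_sup (f := d b) hβ).trans
        (Finset.le_sup (f := fun b => (EE (zb b) Finset.univ).support.sup (d b))
          (Finset.mem_univ b))
      obtain ⟨x, hx⟩ := Nat.exists_eq_add_of_le h1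
      rw [hx, pow_add, pow_mul]
      exact (PP ρ Λ₀).pow_mem (hd b β) _
    · rw [notMem_support_iff.mp hβ, zero_pow (pow_pos hp.pos _).ne']
      exact (PP ρ Λ₀).zero_mem
  refine ⟨c + a + d₁, ?_⟩
  intro Λ _ hne f hf
  -- the key: coefficients for the bounded monomials
  have hkey : ∀ β, (EE (fun (s : Fin m → Fin N → Θ → Option Λ) i =>
      translateD ρ Λ (e i) (mon ρ e Λ w s)) Finset.univ).coeff β ∈ frobPre p (PP ρ Λ) d₁ := by
    intro β
    refine EE_restrict_mem (fun (s : Fin m → Fin N → Θ → Option Λ) i =>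
      translateD ρ Λ (e i) (mon ρ e Λ w s)) Finset.univ N (by simp)
      (frobPre p (PP ρ Λ) d₁).toSubring ?_ β
    intro τ β
    let b : Fin N → Fin m → Fin N → Θ → Bool := fun j r i t => (τ j r i t).isSome
    let σ : Λ₀ → Λ := fun x => (τ x.1 x.2.1 x.2.2.1 x.2.2.2).getD (Classical.arbitrary Λ)
    have h1 : ∀ j, relab k m σ (mon ρ e Λ₀ w (sb b j)) = mon ρ e Λ w (τ j) := by
      intro j
      rw [relab_mon]
      congr 1
      funext r i t
      simp only [sb, b, σ]
      rcases Option.eq_none_or_eq_some (τ j r i t) with hs | ⟨l, hs⟩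
      · simp [hs]
      · simp [hs]
    have h2 : relab k m σ ((EE (zb b) Finset.univ).coeff β) =
        (EE (fun j i => translateD ρ Λ (e i) (mon ρ e Λ w (τ j))) Finset.univ).coeff β := by
      have := map_coeff_EE
        (relab k m σ : MvPolynomial (Λ₀ × Fin m) k →+* MvPolynomial (Λ × Fin m) k) (zb b)
        Finset.univ β
      rw [RingHom.coe_coe] at this
      rw [this]
      simp only [zb, relab_translateD, h1]
    have h3 := relab_PP ρ σ (hd₁' b β)
    rw [map_pow, h2] at h3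
    exact h3
  -- write `f ^ p ^ c` as a combination
  have h4 := frob_mem ρ e p hG Λ f
  rw [prod_bm_eq] at h4
  obtain ⟨h, hh, hsum⟩ := exists_sum_of_mem (PP ρ Λ) (mon ρ e Λ w) h4
  have h5 : (f ^ p ^ c) ^ p ^ a ∈ frobPre p (PP ρ Λ) d₁ := by
    refine trick (k := k) p (frobPre p (PP ρ Λ) d₁)
      (fun (s : Fin m → Fin N → Θ → Option Λ) i => translateD ρ Λ (e i) (mon ρ e Λ w s)) h
      (fun s => (PP ρ Λ).pow_mem (hh s) _) hkey (f ^ p ^ c) ?_ a N' hN hN'k
    intro i
    have h6 : translateD ρ Λ (e i) (f ^ p ^ c) = f ^ p ^ c := by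
      rw [map_pow, hf (e i)]
    conv_rhs => rw [← h6, hsum, map_sum]
    refine Finset.sum_congr rfl fun s _ => ?_
    rw [map_mul, PP_le_invD ρ Λ (hh s) (e i), mul_comm]
  rw [mem_frobPre, ← pow_mul, ← pow_mul, ← pow_add, ← pow_add, ← add_assoc] at h5
  exact h5

end Pool.Agent.H86.Polar
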